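import Pool.Agent.H91.SF.Asm

/-!
# Section 2, final theorems
-/

set_option autoImplicit false

open scoped InnerProductSpace Topology ContDiff
open Set Filter

namespace Pool.Agent.H91.SF

open Pool.Agent.H91.GE hiding G1 G11 Nondeg Br exists_br cF smooth_cF Cfg mem_TSet_of_map
open Pool.Agent.H59.LV Pool.Agent.H59.ND Pool.Agent.H77.ND Pool.Agent.H59.Zar

variable {E F N : Type*} [NormedAddCommGroup E] [InnerProductSpace ℝ E] [FiniteDimensional ℝ E]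
  [NormedAddCommGroup F] [InnerProductSpace ℝ F] [FiniteDimensional ℝ F]
  [NormedAddCommGroup N] [NormedSpace ℝ N] [FiniteDimensional ℝ N]
  {S : Set E} {A : E × E → E} {K K₂ : NNReal} {Φ : ℝ → E × E → E × E}
  {Ω₁ Ω₂ : Set N} {ψ₁ ψ₂ : N → E} {P₁ P₂ : E →L[ℝ] N} {W₁ W₂ : Set E}
/-- Joint class data on the open set `𝒪` of pairs of vectors: ONE pair of class functions
`ζ₁, ζ₂` with factors `ν₁, ν₂`; the exact joint class returns are dense among the returns in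
`𝒪`. -/
structure JCD (Φ : ℝ → E × E → E × E) (S : Set E) (𝒪 : Set ((E × E) × (E × E)))
    (ζ₁ ζ₂ : E × E → E) (ν₁ ν₂ : (E × E) × (E × E) → ℝ) : Prop where
  isOpen : IsOpen 𝒪
  gd₁ : ∀ q ∈ 𝒪, q ∈ Ret Φ S → Pool.Agent.H77.SN.Gd S ζ₁ q.1.1 q.2.1
  gd₂ : ∀ q ∈ 𝒪, q ∈ Ret Φ S → Pool.Agent.H77.SN.Gd S ζ₂ q.1.1 q.2.1
  smooth₁ : ContDiffOn ℝ ∞ ν₁ 𝒪
  smooth₂ : ContDiffOn ℝ ∞ ν₂ 𝒪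
  ne₁ : ∀ q ∈ 𝒪, q ∈ Ret Φ S → ν₁ q ≠ 0
  ne₂ : ∀ q ∈ 𝒪, q ∈ Ret Φ S → ν₂ q ≠ 0
  ne : ∀ q ∈ 𝒪, q ∈ Ret Φ S → ν₁ q ≠ ν₂ q
  /-- (C1), identities on the relation in `𝒪` -/
  c1₁ : ∀ q ∈ 𝒪, q ∈ Ret Φ S → fderiv ℝ ζ₁ (q.1.1, q.2.1) (q.1.2, -(ν₁ q • q.2.2)) = 0
  c1₂ : ∀ q ∈ 𝒪, q ∈ Ret Φ S → fderiv ℝ ζ₂ (q.1.1, q.2.1) (q.1.2, -(ν₂ q • q.2.2)) = 0
  dense : ∀ q ∈ 𝒪, q ∈ Ret Φ S → q ∈ closure {q' | q' ∈ 𝒪 ∧ ∃ L, q'.2 = Φ L q'.1 ∧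
    Pool.Agent.H77.SN.Cls Φ S ζ₁ ν₁ q'.1 L ∧ Pool.Agent.H77.SN.Cls Φ S ζ₂ ν₂ q'.1 L}

/-- **Section 2.** Joint class data near every return. -/
theorem exists_JCD (hdim : Module.finrank ℝ E = Module.finrank ℝ F + Module.finrank ℝ N)
    (hN : 1 < Module.finrank ℝ N) (h : GFlow F S A K K₂ Φ) (hsec : Secure S)
    {q₀ : (E × E) × (E × E)} (hq₀ : q₀ ∈ Ret Φ S) {𝒪₀ : Set ((E × E) × (E × E))}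
    (h𝒪₀ : 𝒪₀ ∈ 𝓝 q₀) :
    ∃ (𝒪 : Set ((E × E) × (E × E))) (ζ₁ ζ₂ : E × E → E) (ν₁ ν₂ : (E × E) × (E × E) → ℝ),
      JCD Φ S 𝒪 ζ₁ ζ₂ ν₁ ν₂ ∧ 𝒪 ⊆ 𝒪₀ ∧ (𝒪 ∩ Ret Φ S).Nonempty := by
  obtain ⟨Ω₁, Ω₂, ψ₁, ψ₂, P₁, P₂, W₁, W₂, O, ζ₁, ζ₂, ε₁, ε₂, 𝒪, 𝒞, hd₁, hd₂, hj, hsub, c₀, hc₀,
    hq₀'⟩ := exists_CD hdim hN h hsec hq₀ h𝒪₀
  obtain ⟨hxO, a, hCR, -⟩ := hd₁.cls _ hc₀
  obtain ⟨u1, u2, b1, b2, p1, p2, -, -⟩ := rp_chart h hd₁.patch₁ hd₁.patch₂ hCR.1 hCR.2.1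
  obtain ⟨w1, w2, -⟩ := hd₁.base _ hq₀'
  have hS₁ : (rp Φ ψ₁ c₀.1 c₀.2).1.1 ∈ S := fst_mem_TSet u1.1
  have hS₂ : (rp Φ ψ₁ c₀.1 c₀.2).2.1 ∈ S := fst_mem_TSet u2.1
  obtain ⟨D₁, τ₁, t₁, hD₁⟩ := exists_Tau h.sub hd₁.patch₁ hS₁ w1
  obtain ⟨D₂, τ₂, t₂, hD₂⟩ := exists_Tau h.sub hd₁.patch₂ hS₂ w2
  set z₁ := zh τ₁ τ₂ ζ₁ with hz₁
  set z₂ := zh τ₁ τ₂ ζ₂ with hz₂
  have hW₀ : ((rp Φ ψ₁ c₀.1 c₀.2).1.1, (rp Φ ψ₁ c₀.1 c₀.2).2.1) ∈ Wd D₁ D₂ τ₁ τ₂ O := by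
    refine ⟨⟨hD₁, hD₂⟩, ?_⟩
    rw [mem_preimage, t₁.eq _ hD₁ hS₁, t₂.eq _ hD₂ hS₂, p1, p2]
    exact hxO
  have hDo₁ := isOpen_Dm t₁ t₂ hd₁.isOpen hd₁.germ
  have hDo₂ := isOpen_Dm t₁ t₂ hd₂.isOpen hd₂.germ
  set 𝒪' : Set ((E × E) × (E × E)) :=
    𝒪 ∩ (Dm D₁ D₂ τ₁ τ₂ O z₁ ∩ Dm D₁ D₂ τ₁ τ₂ O z₂) with h𝒪'
  have h𝒪'o : IsOpen 𝒪' := hd₁.open'.inter (hDo₁.inter hDo₂)
  have hc1₁ : ∀ q ∈ 𝒪', q ∈ Ret Φ S →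
      fderiv ℝ z₁ (q.1.1, q.2.1) (q.1.2, -(nu z₁ q • q.2.2)) = 0 := fun q hq hqR =>
    c1_mem h hd₁ t₁ t₂ hq.1 hqR hq.2.1.1
  have hc1₂ : ∀ q ∈ 𝒪', q ∈ Ret Φ S →
      fderiv ℝ z₂ (q.1.1, q.2.1) (q.1.2, -(nu z₂ q • q.2.2)) = 0 := fun q hq hqR =>
    c1_mem h hd₂ t₁ t₂ hq.1 hqR hq.2.2.1
  refine ⟨𝒪', z₁, z₂, nu z₁, nu z₂, ?_, fun q hq => hsub hq.1, ?_⟩
  · exact
      { isOpen := h𝒪'o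
        gd₁ := fun q hq hqR =>
          gd_zh h.sub hd₁.patch₁ hd₁.patch₂ t₁ t₂ hd₁.isOpen hd₁.germ hq.2.1.1
        gd₂ := fun q hq hqR =>
          gd_zh h.sub hd₁.patch₁ hd₁.patch₂ t₁ t₂ hd₂.isOpen hd₂.germ hq.2.1.1
        smooth₁ := (smooth_nu t₁ t₂ hd₁.isOpen hd₁.germ).mono fun q hq => hq.2.1
        smooth₂ := (smooth_nu t₁ t₂ hd₂.isOpen hd₂.germ).mono fun q hq => hq.2.2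
        ne₁ := fun q hq hqR => nu_ne (dz_fst_ne h.sub hd₁.patch₁ t₁ t₂ hd₁.isOpen hd₁.germ
          hqR.1 hqR.2.1 hq.2.1.1) (hc1₁ q hq hqR)
        ne₂ := fun q hq hqR => nu_ne (dz_fst_ne h.sub hd₁.patch₁ t₁ t₂ hd₂.isOpen hd₂.germ
          hqR.1 hqR.2.1 hq.2.1.1) (hc1₂ q hq hqR)
        ne := fun q hq hqR => nu_ne_nu h.sub hd₁.patch₁ t₁ t₂ hd₁.isOpen hd₁.germ hd₂.germ hj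
          hqR.1 hqR.2.1 hq.2.1.1 (hc1₁ q hq hqR) (hc1₂ q hq hqR)
        c1₁ := hc1₁
        c1₂ := hc1₂
        dense := by
          intro q hq hqR
          rw [mem_closure_iff]
          intro V hV hqV
          obtain ⟨q', hq', c, hc, rfl⟩ :=
            mem_closure_iff.1 (hd₁.dense ⟨hq.1, hqR⟩) (V ∩ 𝒪') (hV.inter h𝒪'o) ⟨hqV, hq⟩
          have k₁ := cls_of_class hdim h hd₁ t₁ t₂ hc hq'.2.1 hq'.2.2.1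
          have k₂ := cls_of_class hdim h hd₂ t₁ t₂ hc hq'.2.1 hq'.2.2.2
          exact ⟨_, hq'.1, hq'.2, _, k₁.1, k₁.2, k₂.2⟩ }
  · refine ⟨rp Φ ψ₁ c₀.1 c₀.2, ⟨hq₀', ⟨hW₀, ?_⟩, ⟨hW₀, ?_⟩⟩, ?_⟩
    · exact dz_snd_ne h.sub hd₁.patch₂ t₁ t₂ hd₁.isOpen hd₁.germ u1 u2 hW₀
    · exact dz_snd_ne h.sub hd₁.patch₂ t₁ t₂ hd₂.isOpen hd₂.germ u1 u2 hW₀
    · have h1 := rp_eq h hd₁.patch₁ hCR.1.1 hCR.2.1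
      have h2 : rp Φ ψ₁ c₀.1 c₀.2
          = ((rp Φ ψ₁ c₀.1 c₀.2).1, Φ ‖fderiv ℝ ψ₁ c₀.1.1 c₀.2‖ (rp Φ ψ₁ c₀.1 c₀.2).1) :=
        Prod.ext rfl h1.2.2
      rw [h2]
      exact flow_mem_Ret hdim h u1 _

/-- The exact joint class returns are dense. -/
theorem dense_JR (hdim : Module.finrank ℝ E = Module.finrank ℝ F + Module.finrank ℝ N)
    (hN : 1 < Module.finrank ℝ N) (h : GFlow F S A K K₂ Φ) (hsec : Secure S)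
    {q₀ : (E × E) × (E × E)} (hq₀ : q₀ ∈ Ret Φ S) {𝒪₀ : Set ((E × E) × (E × E))}
    (h𝒪₀ : 𝒪₀ ∈ 𝓝 q₀) :
    ∃ (w : E × E) (L : ℝ), (w, Φ L w) ∈ 𝒪₀ ∧ Pool.Agent.H77.SN.JR Φ S w L := by
  obtain ⟨𝒪, ζ₁, ζ₂, ν₁, ν₂, hJ, hsub, q, hq, hqR⟩ := exists_JCD hdim hN h hsec hq₀ h𝒪₀
  obtain ⟨q', hq', hq'2, L, hL, h1, h2⟩ :=
    mem_closure_iff.1 (hJ.dense q hq hqR) 𝒪 hJ.isOpen hq
  have hqe : q' = (q'.1, Φ L q'.1) := Prod.ext rfl hL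
  have hR : q' ∈ Ret Φ S := by
    rw [hqe]
    exact flow_mem_Ret hdim h h1.mem L
  refine ⟨q'.1, L, ?_, ζ₁, ζ₂, ν₁, ν₂, h1, h2, ?_⟩
  · rw [← hqe]; exact hsub hq'
  · rw [← hqe]; exact hJ.ne q' hq' hR

end Pool.Agent.H91.SF
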