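import Pool.Agent.H91.SF.Defs

/-!
# Exact nondegenerate returns are dense among the returns, over residual pairs of points
-/

set_option autoImplicit false

open scoped InnerProductSpace Topology ContDiff
open Set Filter

namespace Pool.Agent.H91.SF

open Pool.Agent.H91.GE hiding G1 G11 Nondeg Br exists_br cF smooth_cF Cfg mem_TSet_of_map
open Pool.Agent.H59.LV Pool.Agent.H59.ND Pool.Agent.H77.ND Pool.Agent.H59.Zar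

variable {E F N : Type*} [NormedAddCommGroup E] [InnerProductSpace ℝ E] [FiniteDimensional ℝ E]
  [NormedAddCommGroup F] [InnerProductSpace ℝ F] [FiniteDimensional ℝ F]
  [NormedAddCommGroup N] [NormedSpace ℝ N] [FiniteDimensional ℝ N]
  {S : Set E} {A : E × E → E} {K K₂ : NNReal} {Φ : ℝ → E × E → E × E}
  {Ω₁ Ω₂ : Set N} {ψ₁ ψ₂ : N → E} {P₁ P₂ : E →L[ℝ] N} {W₁ W₂ : Set E}

/-- Exact returns are returns. -/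
theorem rp_eq (h : GFlow F S A K K₂ Φ) (hp₁ : Patch S Ω₁ ψ₁ P₁ W₁) {x : N × N} (hx : x.1 ∈ Ω₁)
    {w : N} (hw : w ≠ 0) :
    (rp Φ ψ₁ x w).1 ∈ UT S ∧ 0 < ‖fderiv ℝ ψ₁ x.1 w‖ ∧
      (rp Φ ψ₁ x w).2 = Φ ‖fderiv ℝ ψ₁ x.1 w‖ (rp Φ ψ₁ x w).1 := by
  have huT : (ψ₁ x.1, fderiv ℝ ψ₁ x.1 w) ∈ TSet S := hp₁.mem_TSet h.sub hx w
  have hL : 0 < ‖fderiv ℝ ψ₁ x.1 w‖ := norm_pos_iff.2 (fderiv_ne_zero hp₁ hx hw)
  obtain ⟨e1, e2⟩ := h.Geo_eq huT hL (by linarith) 1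
  rw [mul_one] at e1 e2
  refine ⟨⟨scale_TSet huT h.sub _, ?_⟩, hL, ?_⟩
  · show ‖‖fderiv ℝ ψ₁ x.1 w‖⁻¹ • fderiv ℝ ψ₁ x.1 w‖ = 1
    rw [norm_smul, norm_inv, norm_norm, inv_mul_cancel₀ hL.ne']
  · refine Prod.ext e1 ?_
    show ‖fderiv ℝ ψ₁ x.1 w‖⁻¹ • deriv (Geo Φ (ψ₁ x.1) (fderiv ℝ ψ₁ x.1 w)) 1 = _
    rw [e2, smul_smul, inv_mul_cancel₀ hL.ne', one_smul]
    rfl

/-- Exact returns are returns (every unit vector is nonwandering). -/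
theorem flow_mem_Ret (hdim : Module.finrank ℝ E = Module.finrank ℝ F + Module.finrank ℝ N)
    (h : GFlow F S A K K₂ Φ) {w : E × E} (hw : w ∈ UT S) (t : ℝ) :
    (w, Φ t w) ∈ Ret Φ S := by
  have h2 : ‖w.2‖ ≤ 2 := by rw [hw.2]; norm_num
  obtain ⟨m1, m2⟩ := h.mem hw.1 h2 t
  refine ⟨hw, ⟨m1, by rw [m2]; exact hw.2⟩, fun O O' hO hO' hwO hwO' T => ?_⟩
  have hc : Continuous fun w : E × E => Φ t w :=
    (IsFlow.continuous h.vf h.flow).comp (continuous_const.prodMk continuous_id)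
  have hV : O ∩ (fun w => Φ t w) ⁻¹' O' ∈ 𝓝 w :=
    inter_mem (hO.mem_nhds hwO) ((hO'.preimage hc).mem_nhds hwO')
  have hw0 : w.2 ≠ 0 := by
    intro h0
    have := hw.2
    rw [h0, norm_zero] at this
    exact zero_ne_one this
  obtain ⟨w', hw'V, hw'T, hw'1, s, hs, hsV⟩ := h.nonwandering_speed (n := Module.finrank ℝ N)
    (by omega) hw.1 (by rw [hw.2]; norm_num) hw0 hV (T - t)
  refine ⟨t + s, by linarith, w', hw'T, by rw [hw'1]; exact hw.2, hw'V.1, ?_⟩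
  rw [h.flow.add h.vf]
  exact hsV.2

/-- Exact nondegenerate returns are dense in `Ret`, over any two patches. -/
theorem exists_rp_mem (hdim : Module.finrank ℝ E = Module.finrank ℝ F + Module.finrank ℝ N)
    (h : GFlow F S A K K₂ Φ) (hp₁ : Patch S Ω₁ ψ₁ P₁ W₁) (hp₂ : Patch S Ω₂ ψ₂ P₂ W₂)
    {q : (E × E) × (E × E)} (hq : q ∈ Ret Φ S) (hq1 : q.1.1 ∈ W₁) (hq2 : q.2.1 ∈ W₂)
    {𝒪 : Set ((E × E) × (E × E))} (h𝒪 : 𝒪 ∈ 𝓝 q) :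
    ∃ (x : N × N) (w : N), Cfg Φ Ω₁ Ω₂ ψ₁ ψ₂ x w ∧ w ≠ 0 ∧ rp Φ ψ₁ x w ∈ 𝒪 := by
  obtain ⟨⟨X, u⟩, Y, v⟩ := q
  obtain ⟨⟨hT1, -⟩, ⟨hT2, -⟩, hl⟩ := hq
  simp only at hT1 hT2 hq1 hq2 hl
  obtain ⟨hx1, hX, -⟩ := hp₁.of_TSet hq1 hT1
  obtain ⟨hx2, hY, -⟩ := hp₂.of_TSet hq2 hT2
  set x : N × N := (P₁ X, P₂ Y) with hx
  have hX' : ψ₁ x.1 = X := hX
  have hY' : ψ₂ x.2 = Y := hY
  have hT : ContinuousAt (fun z : (N × N) × (E × E) =>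
      (((ψ₁ z.1.1, z.2.1), (ψ₂ z.1.2, z.2.2)) : (E × E) × (E × E))) (x, (u, v)) := by
    have c1 : ContinuousAt (fun z : (N × N) × (E × E) => ψ₁ z.1.1) (x, (u, v)) :=
      ContinuousAt.comp (g := ψ₁) (f := fun z : (N × N) × (E × E) => z.1.1)
        (contDiffAt_of_open hp₁.isOpen hp₁.smooth hx1).continuousAt (by fun_prop)
    have c2 : ContinuousAt (fun z : (N × N) × (E × E) => ψ₂ z.1.2) (x, (u, v)) :=
      ContinuousAt.comp (g := ψ₂) (f := fun z : (N × N) × (E × E) => z.1.2)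
        (contDiffAt_of_open hp₂.isOpen hp₂.smooth hx2).continuousAt (by fun_prop)
    exact (c1.prodMk (by fun_prop)).prodMk (c2.prodMk (by fun_prop))
  have hpre := hT.preimage_mem_nhds (show 𝒪 ∈ 𝓝 ((ψ₁ x.1, u), (ψ₂ x.2, v)) by
    rw [hX', hY']; exact h𝒪)
  rw [nhds_prod_eq] at hpre
  obtain ⟨M₁, hM₁, M₂, hM₂, hMM⟩ := mem_prod_iff.1 hpre
  obtain ⟨B, hBM, hBo, hB⟩ := mem_nhds_iff.1 hM₂
  have hcl := lead_mem_closure hdim h hp₁ hp₂ (x := x) hx1 hx2 (u := u) (v := v)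
    (by rw [hX', hY']; exact hl) hBo hB 0
  obtain ⟨x', hx'M, w, hcfg, hw0, -, hwB⟩ := mem_closure_iff_nhds.1 hcl M₁ hM₁
  refine ⟨x', w, hcfg, hw0, ?_⟩
  have h1 := hMM (show (x', _) ∈ M₁ ×ˢ M₂ from ⟨hx'M, hBM hwB⟩)
  have h2 : rp Φ ψ₁ x' w = ((ψ₁ x'.1, ‖fderiv ℝ ψ₁ x'.1 w‖⁻¹ • fderiv ℝ ψ₁ x'.1 w),
      (ψ₂ x'.2, ‖fderiv ℝ ψ₁ x'.1 w‖⁻¹ • deriv (G1 Φ ψ₁ (x'.1, w)) 1)) := by
    rw [rp, hcfg.2.2.1]
  rw [h2]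
  exact h1

/-- A nondegenerate exact return moves continuously with the pair of end points. -/
theorem rp_continuousAt (h : GFlow F S A K K₂ Φ) (hp₁ : Patch S Ω₁ ψ₁ P₁ W₁) {x : N × N}
    (hx : x.1 ∈ Ω₁) {κ : N × N → N} (hκ : ContinuousAt κ x) (hκ0 : κ x ≠ 0) :
    ContinuousAt (fun x' => rp Φ ψ₁ x' (κ x')) x := by
  have hcc : ContinuousAt (fun x : N × N => (x.1, κ x)) x := continuousAt_fst.prodMk hκ
  have hv0 : fderiv ℝ ψ₁ x.1 (κ x) ≠ 0 := fderiv_ne_zero hp₁ hx hκ0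
  have hc0 : ContinuousAt (fun x' : N × N => ψ₁ x'.1) x :=
    ContinuousAt.comp (g := ψ₁) (f := fun x' : N × N => x'.1)
      (contDiffAt_of_open hp₁.isOpen hp₁.smooth hx).continuousAt continuousAt_fst
  have hc1 : ContinuousAt (fun x' : N × N => fderiv ℝ ψ₁ x'.1 (κ x')) x :=
    (ContinuousAt.comp (g := fderiv ℝ ψ₁) (f := fun x' : N × N => x'.1)
      (contDiffAt_of_open hp₁.isOpen hp₁.fderiv_smooth hx).continuousAt continuousAt_fst).clm_apply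
      hκ
  have g2 : ContinuousAt (fun x' : N × N => (((x'.1, κ x'), 1) : (N × N) × ℝ)) x :=
    hcc.prodMk continuousAt_const
  have hc2 : ContinuousAt (fun x' : N × N => G1 Φ ψ₁ (x'.1, κ x') 1) x := by
    have g1 := (contDiffAt_G1 h hp₁ (x := ((x.1, κ x), 1)) hx).1.continuousAt
    exact ContinuousAt.comp (g := fun y : (N × N) × ℝ => G1 Φ ψ₁ y.1 y.2)
      (f := fun x' : N × N => (((x'.1, κ x'), 1) : (N × N) × ℝ)) (x := x) g1 g2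
  have hc3 : ContinuousAt (fun x' : N × N => deriv (G1 Φ ψ₁ (x'.1, κ x')) 1) x := by
    have g1 := (contDiffAt_G1 h hp₁ (x := ((x.1, κ x), 1)) hx).2.continuousAt
    exact ContinuousAt.comp (g := fun y : (N × N) × ℝ => deriv (G1 Φ ψ₁ y.1) y.2)
      (f := fun x' : N × N => (((x'.1, κ x'), 1) : (N × N) × ℝ)) (x := x) g1 g2
  have hn : ContinuousAt (fun x' : N × N => ‖fderiv ℝ ψ₁ x'.1 (κ x')‖⁻¹) x :=
    hc1.norm.inv₀ (norm_ne_zero_iff.2 hv0)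
  exact (hc0.prodMk (hn.smul hc1)).prodMk (hc2.prodMk (hn.smul hc3))

/-- A nondegenerate exact return moves with the pair of end points. -/
theorem rp_move (h : GFlow F S A K K₂ Φ) (hp₁ : Patch S Ω₁ ψ₁ P₁ W₁) (hp₂ : Patch S Ω₂ ψ₂ P₂ W₂)
    {x : N × N} {w : N} (hc : Cfg Φ Ω₁ Ω₂ ψ₁ ψ₂ x w) (hw : w ≠ 0) {𝒪 : Set ((E × E) × (E × E))}
    (h𝒪 : 𝒪 ∈ 𝓝 (rp Φ ψ₁ x w)) :
    ∃ (O : Set (N × N)) (V : Set N) (κ : N × N → N), Br Φ Ω₁ Ω₂ ψ₁ ψ₂ O V κ ∧ x ∈ O ∧ κ x = w ∧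
      ∀ᶠ x' in 𝓝 x, x' ∈ O ∧ Cfg Φ Ω₁ Ω₂ ψ₁ ψ₂ x' (κ x') ∧ κ x' ≠ 0 ∧ rp Φ ψ₁ x' (κ x') ∈ 𝒪 := by
  obtain ⟨O, V, κ, hbr, hxO, hwV, hκ⟩ := exists_br h hp₁ hp₂ hc.1 hc.2.1 hc.2.2.1 hc.2.2.2
  have hκc : ContinuousAt κ x := (contDiffAt_of_open hbr.isOpen hbr.smooth hxO).continuousAt
  have e0 : ∀ᶠ x' in 𝓝 x, κ x' ≠ 0 := hκc.eventually_ne (by rw [hκ]; exact hw)
  have e1 := br_cfg_eventually h hp₁ hbr hxO (by rw [hκ]; exact hc)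
  have e2 : ∀ᶠ x' in 𝓝 x, rp Φ ψ₁ x' (κ x') ∈ 𝒪 :=
    (rp_continuousAt h hp₁ hc.1 hκc (by rw [hκ]; exact hw)).preimage_mem_nhds
      (by rw [hκ]; exact h𝒪)
  refine ⟨O, V, κ, hbr, hxO, hκ, ?_⟩
  filter_upwards [e0, e1, e2] with x' h0 h1 h2
  exact ⟨h1.1, h1.2, h0, h2⟩

/-- The nongeneric pairs are rare. -/
theorem gen_meagre (hdim : Module.finrank ℝ E = Module.finrank ℝ F + Module.finrank ℝ N)
    (hN : 1 < Module.finrank ℝ N) (h : GFlow F S A K K₂ Φ) (hsec : Secure S)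
    (hp₁ : Patch S Ω₁ ψ₁ P₁ W₁) (hp₂ : Patch S Ω₂ ψ₂ P₂ W₂) :
    IsMeagre {x : N × N | x.1 ∈ Ω₁ ∧ x.2 ∈ Ω₂ ∧ ¬ Gen Φ S Ω₁ Ω₂ ψ₁ ψ₂ x} := by
  have m1 := tri_meagre hdim h hp₁ hp₂
  have m2 := pair_meagre hdim h hsec hp₁ hp₂
  have m3 := Pool.Agent.H59.ND.loop_meagre hN h hsec hp₁ hp₂
  have m4 := Pool.Agent.H59.ND.loop_meagre' hN h hsec hp₁ hp₂
  have m5 := lead_residual hdim h hp₁ hp₂
  refine (m1.union (m2.union (m3.union (m4.union m5)))).mono ?_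
  rintro x ⟨hx1, hx2, hbad⟩
  by_contra hcon
  simp only [mem_union, mem_ofPred_eq, not_or] at hcon
  obtain ⟨h1, h2, h3, h4, h5⟩ := hcon
  refine hbad ⟨fun y hy => ?_, fun y hy => ?_, fun hl =>
    h3 ⟨hx1, hx2, hl⟩, fun hl => h4 ⟨hx1, hx2, hl⟩, fun u v huv O hO hO' T => ?_⟩
  · by_contra hc; exact h1 ⟨y, hy, hc⟩
  · by_contra hc; exact h2 ⟨y, hy, hc⟩
  · by_contra hc
    exact h5 ⟨hx1, hx2, u, v, huv, O, hO, hO', T, hc⟩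

/-- The returns over a closed set of pairs without interior have no interior in `Ret`. -/
theorem not_subset_closed (hdim : Module.finrank ℝ E = Module.finrank ℝ F + Module.finrank ℝ N)
    (h : GFlow F S A K K₂ Φ) (hp₁ : Patch S Ω₁ ψ₁ P₁ W₁) (hp₂ : Patch S Ω₂ ψ₂ P₂ W₂)
    {q : (E × E) × (E × E)} (hq : q ∈ Ret Φ S) (hq1 : q.1.1 ∈ W₁) (hq2 : q.2.1 ∈ W₂)
    {𝒪 : Set ((E × E) × (E × E))} (ho : IsOpen 𝒪) (hq𝒪 : q ∈ 𝒪) {D : Set (N × N)}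
    (hD : interior D = ∅) :
    ∃ q' ∈ Ret Φ S, q' ∈ 𝒪 ∧ (P₁ q'.1.1, P₂ q'.2.1) ∉ D := by
  obtain ⟨x, w, hc, hw, hrp⟩ := exists_rp_mem hdim h hp₁ hp₂ hq hq1 hq2 (ho.mem_nhds hq𝒪)
  obtain ⟨O, V, κ, -, -, -, hev⟩ := rp_move h hp₁ hp₂ hc hw (ho.mem_nhds hrp)
  have hex : ∃ x' : N × N, x' ∉ D ∧ (x' ∈ O ∧ Cfg Φ Ω₁ Ω₂ ψ₁ ψ₂ x' (κ x') ∧ κ x' ≠ 0 ∧
      rp Φ ψ₁ x' (κ x') ∈ 𝒪) := by
    by_contra hcon
    push Not at hcon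
    have h1 : D ∈ 𝓝 x := by
      filter_upwards [hev] with x' hx'
      by_contra hx'D
      exact hcon x' hx'D hx'.1 hx'.2.1 hx'.2.2.1 hx'.2.2.2
    have h2 : x ∈ interior D := mem_interior_iff_mem_nhds.2 h1
    rw [hD] at h2
    exact h2
  obtain ⟨x', hx'D, -, hc', hw', hrp'⟩ := hex
  obtain ⟨r1, -, r3⟩ := rp_eq h hp₁ hc'.1 hw'
  refine ⟨rp Φ ψ₁ x' (κ x'), ?_, hrp', ?_⟩
  · have h1 := flow_mem_Ret hdim h r1 ‖fderiv ℝ ψ₁ x'.1 (κ x')‖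
    rw [← r3] at h1
    exact h1
  · have h1 : (P₁ (rp Φ ψ₁ x' (κ x')).1.1, P₂ (rp Φ ψ₁ x' (κ x')).2.1) = x' := by
      refine Prod.ext (hp₁.left _ hc'.1) ?_
      show P₂ (G1 Φ ψ₁ (x'.1, κ x') 1) = x'.2
      rw [hc'.2.2.1]
      exact hp₂.left _ hc'.2.1
    rw [h1]
    exact hx'D

end Pool.Agent.H91.SF
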