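import Pool.Agent.H91.SF.Zh
import Pool.Agent.H91.SF.RetA

/-!
# The factor `ν` and the identity (C1) on the relation
-/

set_option autoImplicit false

open scoped InnerProductSpace Topology ContDiff
open Set Filter

namespace Pool.Agent.H91.SF

open Pool.Agent.H91.GE hiding G1 G11 Nondeg Br exists_br cF smooth_cF Cfg mem_TSet_of_map
open Pool.Agent.H59.LV Pool.Agent.H59.ND Pool.Agent.H77.ND Pool.Agent.H59.Zar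

variable {E F N : Type*} [NormedAddCommGroup E] [InnerProductSpace ℝ E] [FiniteDimensional ℝ E]
  [NormedAddCommGroup F] [InnerProductSpace ℝ F] [FiniteDimensional ℝ F]
  [NormedAddCommGroup N] [NormedSpace ℝ N] [FiniteDimensional ℝ N]
  {S : Set E} {A : E × E → E} {K K₂ : NNReal} {Φ : ℝ → E × E → E × E}
  {Ω₁ Ω₂ : Set N} {ψ₁ ψ₂ : N → E} {P₁ P₂ : E →L[ℝ] N} {W₁ W₂ : Set E}  {O : Set (N × N)} {ζ : N × N → E} {D₁ D₂ : Set E} {τ₁ τ₂ : E → N}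

/-- The factor `ν`. -/
noncomputable def nu (z : E × E → E) (q : (E × E) × (E × E)) : ℝ :=
  ⟪fderiv ℝ z (q.1.1, q.2.1) (0, q.2.2), fderiv ℝ z (q.1.1, q.2.1) (q.1.2, 0)⟫_ℝ /
    ‖fderiv ℝ z (q.1.1, q.2.1) (0, q.2.2)‖ ^ 2

omit [FiniteDimensional ℝ E] in
theorem split (L : E × E →L[ℝ] E) (u v : E) (r : ℝ) :
    L (u, -(r • v)) = L (u, 0) - r • L (0, v) := by
  have h1 : ((u, -(r • v)) : E × E) = (u, 0) - r • (0, v) := by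
    ext <;> simp
  rw [h1, map_sub, map_smul]

omit [FiniteDimensional ℝ E] in
theorem c1_iff {z : E × E → E} {q : (E × E) × (E × E)}
    (h0 : fderiv ℝ z (q.1.1, q.2.1) (0, q.2.2) ≠ 0) :
    fderiv ℝ z (q.1.1, q.2.1) (q.1.2, -(nu z q • q.2.2)) = 0 ↔
      ‖fderiv ℝ z (q.1.1, q.2.1) (0, q.2.2)‖ ^ 2 • fderiv ℝ z (q.1.1, q.2.1) (q.1.2, 0)
        = ⟪fderiv ℝ z (q.1.1, q.2.1) (0, q.2.2), fderiv ℝ z (q.1.1, q.2.1) (q.1.2, 0)⟫_ℝ •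
          fderiv ℝ z (q.1.1, q.2.1) (0, q.2.2) := by
  rw [split, sub_eq_zero, nu]
  set X := fderiv ℝ z (q.1.1, q.2.1) (q.1.2, 0)
  set Y := fderiv ℝ z (q.1.1, q.2.1) (0, q.2.2)
  have hn : ‖Y‖ ^ 2 ≠ 0 := pow_ne_zero 2 (norm_ne_zero_iff.2 h0)
  constructor
  · intro h
    calc ‖Y‖ ^ 2 • X = ‖Y‖ ^ 2 • ((⟪Y, X⟫_ℝ / ‖Y‖ ^ 2) • Y) := by rw [← h]
      _ = ⟪Y, X⟫_ℝ • Y := by rw [smul_smul, mul_div_cancel₀ _ hn]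
  · intro h
    calc X = (‖Y‖ ^ 2)⁻¹ • (‖Y‖ ^ 2 • X) := by rw [smul_smul, inv_mul_cancel₀ hn, one_smul]
      _ = (⟪Y, X⟫_ℝ / ‖Y‖ ^ 2) • Y := by rw [h, smul_smul, div_eq_inv_mul]

omit [FiniteDimensional ℝ E] in
theorem par_rel {X Y e : E} {a b : ℝ} (hX : X = a • e) (hY : Y = b • e) :
    ‖Y‖ ^ 2 • X = ⟪Y, X⟫_ℝ • Y := by
  rw [← real_inner_self_eq_norm_sq, hX, hY]
  simp only [real_inner_smul_left, real_inner_smul_right, smul_smul]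
  congr 1
  ring

/-- The data of an exact return in the charts. -/
theorem rp_chart (h : GFlow F S A K K₂ Φ) (hp₁ : Patch S Ω₁ ψ₁ P₁ W₁)
    (hp₂ : Patch S Ω₂ ψ₂ P₂ W₂) {x : N × N} {w : N} (hc : Cfg Φ Ω₁ Ω₂ ψ₁ ψ₂ x w) (hw : w ≠ 0) :
    (rp Φ ψ₁ x w).1 ∈ UT S ∧ (rp Φ ψ₁ x w).2 ∈ UT S ∧
    (rp Φ ψ₁ x w).1.1 = ψ₁ x.1 ∧ (rp Φ ψ₁ x w).2.1 = ψ₂ x.2 ∧
    P₁ (rp Φ ψ₁ x w).1.1 = x.1 ∧ P₂ (rp Φ ψ₁ x w).2.1 = x.2 ∧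
    P₁ (rp Φ ψ₁ x w).1.2 = ‖fderiv ℝ ψ₁ x.1 w‖⁻¹ • w ∧
    P₂ (rp Φ ψ₁ x w).2.2 = ‖fderiv ℝ ψ₁ x.1 w‖⁻¹ • P₂ (deriv (G1 Φ ψ₁ (x.1, w)) 1) := by
  obtain ⟨h1, h2, h3⟩ := rp_eq h hp₁ hc.1 hw
  have h4 : (rp Φ ψ₁ x w).2 ∈ UT S := by
    rw [h3]
    obtain ⟨h5, h6⟩ := h.mem h1.1 (by rw [h1.2]; norm_num) ‖fderiv ℝ ψ₁ x.1 w‖
    exact ⟨h5, h6.trans h1.2⟩
  refine ⟨h1, h4, rfl, hc.2.2.1, hp₁.left _ hc.1, ?_, ?_, ?_⟩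
  · show P₂ (G1 Φ ψ₁ (x.1, w) 1) = x.2
    rw [hc.2.2.1]; exact hp₂.left _ hc.2.1
  · show P₁ (‖fderiv ℝ ψ₁ x.1 w‖⁻¹ • fderiv ℝ ψ₁ x.1 w) = _
    rw [map_smul, hp₁.κ_fderiv hc.1]
  · show P₂ (‖fderiv ℝ ψ₁ x.1 w‖⁻¹ • deriv (G1 Φ ψ₁ (x.1, w)) 1) = _
    rw [map_smul]

theorem mem_O_of_Wd (t₁ : Tau S Ω₁ P₁ W₁ D₁ τ₁) (t₂ : Tau S Ω₂ P₂ W₂ D₂ τ₂) {x y : E}
    (hW : (x, y) ∈ Wd D₁ D₂ τ₁ τ₂ O) (hx : x ∈ S) (hy : y ∈ S) : (P₁ x, P₂ y) ∈ O := by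
  have := hW.2
  rw [mem_preimage, t₁.eq _ hW.1.1 hx, t₂.eq _ hW.1.2 hy] at this
  exact this

/-- Nonvanishing on unit vectors. -/
theorem dz_snd_ne (hsub : IsSub F S) (hp₂ : Patch S Ω₂ ψ₂ P₂ W₂) (t₁ : Tau S Ω₁ P₁ W₁ D₁ τ₁)
    (t₂ : Tau S Ω₂ P₂ W₂ D₂ τ₂) (hO : IsOpen O) (hg : Germ S O ζ) {q : (E × E) × (E × E)}
    (hq₁ : q.1 ∈ UT S) (hq₂ : q.2 ∈ UT S) (hW : (q.1.1, q.2.1) ∈ Wd D₁ D₂ τ₁ τ₂ O) :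
    fderiv ℝ (zh τ₁ τ₂ ζ) (q.1.1, q.2.1) (0, q.2.2) ≠ 0 := by
  intro h0
  have hS₁ : q.1.1 ∈ S := fst_mem_TSet hq₁.1
  have hS₂ : q.2.1 ∈ S := fst_mem_TSet hq₂.1
  have hv : q.2.2 ∈ ZT S q.2.1 := snd_mem_TS hsub hq₂
  rw [fderiv_zh_tan t₁ t₂ hO hg hW hS₁ hS₂ (Submodule.zero_mem _) hv, map_zero] at h0
  have h1 := hg.inj₂ _ (mem_O_of_Wd t₁ t₂ hW hS₁ hS₂) _ h0
  have h2 := P_inj hsub hp₂ (t₂.sub hW.1.2) hS₂ hv h1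
  have h3 := hq₂.2
  rw [h2, norm_zero] at h3
  exact zero_ne_one h3

theorem dz_fst_ne (hsub : IsSub F S) (hp₁ : Patch S Ω₁ ψ₁ P₁ W₁) (t₁ : Tau S Ω₁ P₁ W₁ D₁ τ₁)
    (t₂ : Tau S Ω₂ P₂ W₂ D₂ τ₂) (hO : IsOpen O) (hg : Germ S O ζ) {q : (E × E) × (E × E)}
    (hq₁ : q.1 ∈ UT S) (hq₂ : q.2 ∈ UT S) (hW : (q.1.1, q.2.1) ∈ Wd D₁ D₂ τ₁ τ₂ O) :
    fderiv ℝ (zh τ₁ τ₂ ζ) (q.1.1, q.2.1) (q.1.2, 0) ≠ 0 := by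
  intro h0
  have hS₁ : q.1.1 ∈ S := fst_mem_TSet hq₁.1
  have hS₂ : q.2.1 ∈ S := fst_mem_TSet hq₂.1
  have hv : q.1.2 ∈ ZT S q.1.1 := snd_mem_TS hsub hq₁
  rw [fderiv_zh_tan t₁ t₂ hO hg hW hS₁ hS₂ hv (Submodule.zero_mem _), map_zero] at h0
  have h1 := hg.inj₁ _ (mem_O_of_Wd t₁ t₂ hW hS₁ hS₂) _ h0
  have h2 := P_inj hsub hp₁ (t₁.sub hW.1.1) hS₁ hv h1
  have h3 := hq₁.2
  rw [h2, norm_zero] at h3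
  exact zero_ne_one h3

/-- (C1) at class returns. -/
theorem c1_exact (h : GFlow F S A K K₂ Φ) (hp₁ : Patch S Ω₁ ψ₁ P₁ W₁)
    (hp₂ : Patch S Ω₂ ψ₂ P₂ W₂) (t₁ : Tau S Ω₁ P₁ W₁ D₁ τ₁) (t₂ : Tau S Ω₂ P₂ W₂ D₂ τ₂)
    (hO : IsOpen O) (hg : Germ S O ζ) {x : N × N} {w : N} {a : ℝ}
    (hc : CR Φ Ω₁ Ω₂ ψ₁ ψ₂ ζ x w a)
    (hW : ((rp Φ ψ₁ x w).1.1, (rp Φ ψ₁ x w).2.1) ∈ Wd D₁ D₂ τ₁ τ₂ O) :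
    ∃ (e : E) (r s : ℝ),
      fderiv ℝ (zh τ₁ τ₂ ζ) ((rp Φ ψ₁ x w).1.1, (rp Φ ψ₁ x w).2.1) ((rp Φ ψ₁ x w).1.2, 0) = r • e ∧
      fderiv ℝ (zh τ₁ τ₂ ζ) ((rp Φ ψ₁ x w).1.1, (rp Φ ψ₁ x w).2.1) (0, (rp Φ ψ₁ x w).2.2)
        = s • e := by
  obtain ⟨hcf, hw0, O', V, κ, θ, hl, hx', hκ, -, -, ha⟩ := hc
  obtain ⟨u1, u2, b1, b2, p1, p2, p3, p4⟩ := rp_chart h hp₁ hp₂ hcf hw0
  have hS₁ : (rp Φ ψ₁ x w).1.1 ∈ S := fst_mem_TSet u1.1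
  have hS₂ : (rp Φ ψ₁ x w).2.1 ∈ S := fst_mem_TSet u2.1
  have hxO : x ∈ O := by
    have := mem_O_of_Wd t₁ t₂ hW hS₁ hS₂
    rwa [p1, p2] at this
  have hζd : DifferentiableAt ℝ ζ x :=
    (hasFDerivAt_of_open hO hg.smooth hxO).differentiableAt
  obtain ⟨s, hs⟩ := lf_first h hp₁ hp₂ hl hx' hζd (0, ‖fderiv ℝ ψ₁ x.1 w‖⁻¹)
  simp only [zero_smul] at hs
  rw [hκ] at hs
  have hu : (rp Φ ψ₁ x w).1.2 ∈ ZT S (rp Φ ψ₁ x w).1.1 := snd_mem_TS h.sub u1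
  have hv : (rp Φ ψ₁ x w).2.2 ∈ ZT S (rp Φ ψ₁ x w).2.1 := snd_mem_TS h.sub u2
  refine ⟨deriv (G1 Φ ψ₁ (x.1, w)) (θ x), ‖fderiv ℝ ψ₁ x.1 w‖⁻¹ * a, s, ?_, ?_⟩
  · rw [fderiv_zh_tan t₁ t₂ hO hg hW hS₁ hS₂ hu (Submodule.zero_mem _)]
    rw [p1, p2, p3, map_zero, mul_smul, ← ha]
    have : ((‖fderiv ℝ ψ₁ x.1 w‖⁻¹ • w, 0) : N × N) = ‖fderiv ℝ ψ₁ x.1 w‖⁻¹ • (w, 0) := by
      ext <;> simp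
    rw [this, map_smul]
  · rw [fderiv_zh_tan t₁ t₂ hO hg hW hS₁ hS₂ (Submodule.zero_mem _) hv]
    rw [p1, p2, p4, map_zero, hs]

/-- (C1) on the relation. -/
theorem c1_mem {𝒪 : Set ((E × E) × (E × E))} {𝒞 : Set ((N × N) × N)} {ε : ℝ}
    (h : GFlow F S A K K₂ Φ)
    (hd : CD Φ S Ω₁ Ω₂ ψ₁ ψ₂ P₁ P₂ W₁ W₂ O ζ ε 𝒪 𝒞) (t₁ : Tau S Ω₁ P₁ W₁ D₁ τ₁)
    (t₂ : Tau S Ω₂ P₂ W₂ D₂ τ₂) {q : (E × E) × (E × E)} (hq : q ∈ 𝒪) (hqR : q ∈ Ret Φ S)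
    (hW : (q.1.1, q.2.1) ∈ Wd D₁ D₂ τ₁ τ₂ O) :
    fderiv ℝ (zh τ₁ τ₂ ζ) (q.1.1, q.2.1) (q.1.2, -(nu (zh τ₁ τ₂ ζ) q • q.2.2)) = 0 := by
  rw [c1_iff (dz_snd_ne h.sub hd.patch₂ t₁ t₂ hd.isOpen hd.germ hqR.1 hqR.2.1 hW)]
  have hWo := isOpen_Wd t₁ t₂ hd.isOpen
  have hsm := smooth_zh t₁ t₂ hd.germ
  have hfc : ContinuousAt (fderiv ℝ (zh τ₁ τ₂ ζ)) (q.1.1, q.2.1) :=
    (hsm.continuousOn_fderiv_of_isOpen hWo (by simp)).continuousAt (hWo.mem_nhds hW)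
  have hb : ContinuousAt (fun q : (E × E) × (E × E) => ((q.1.1, q.2.1) : E × E)) q := by fun_prop
  have hc0 : ContinuousAt (fun q : (E × E) × (E × E) => fderiv ℝ (zh τ₁ τ₂ ζ) (q.1.1, q.2.1)) q :=
    ContinuousAt.comp (g := fderiv ℝ (zh τ₁ τ₂ ζ))
      (f := fun q : (E × E) × (E × E) => ((q.1.1, q.2.1) : E × E)) hfc hb
  have c1 : ContinuousAt (fun q : (E × E) × (E × E) =>
      fderiv ℝ (zh τ₁ τ₂ ζ) (q.1.1, q.2.1) (q.1.2, 0)) q := hc0.clm_apply (by fun_prop)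
  have c2 : ContinuousAt (fun q : (E × E) × (E × E) =>
      fderiv ℝ (zh τ₁ τ₂ ζ) (q.1.1, q.2.1) (0, q.2.2)) q := hc0.clm_apply (by fun_prop)
  have hfreq := mem_closure_iff_frequently.1 (hd.dense ⟨hq, hqR⟩)
  have hev : ∀ᶠ q' : (E × E) × (E × E) in 𝓝 q, (q'.1.1, q'.2.1) ∈ Wd D₁ D₂ τ₁ τ₂ O :=
    hb.preimage_mem_nhds (hWo.mem_nhds hW)
  refine tendsto_nhds_unique_of_frequently_eq ((c2.norm.pow 2).smul c1)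
    ((c2.inner c1).smul c2) ((hfreq.and_eventually hev).mono ?_)
  rintro q' ⟨⟨c, hc, rfl⟩, hW'⟩
  obtain ⟨hcO, a, hCR, -⟩ := hd.cls c hc
  obtain ⟨e, r, s, h1, h2⟩ := c1_exact h hd.patch₁ hd.patch₂ t₁ t₂ hd.isOpen hd.germ hCR hW'
  exact par_rel h1 h2

theorem nu_ne {z : E × E → E} {q : (E × E) × (E × E)}
    (h1 : fderiv ℝ z (q.1.1, q.2.1) (q.1.2, 0) ≠ 0)
    (hc : fderiv ℝ z (q.1.1, q.2.1) (q.1.2, -(nu z q • q.2.2)) = 0) : nu z q ≠ 0 := by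
  intro h0
  rw [h0, zero_smul, neg_zero] at hc
  exact h1 hc

/-- `ν` is smooth. -/
theorem smooth_nu (t₁ : Tau S Ω₁ P₁ W₁ D₁ τ₁) (t₂ : Tau S Ω₂ P₂ W₂ D₂ τ₂) (hO : IsOpen O)
    (hg : Germ S O ζ) : ContDiffOn ℝ ∞ (nu (zh τ₁ τ₂ ζ))
      {q | (q.1.1, q.2.1) ∈ Wd D₁ D₂ τ₁ τ₂ O ∧
        fderiv ℝ (zh τ₁ τ₂ ζ) (q.1.1, q.2.1) (0, q.2.2) ≠ 0} := by
  have hWo := isOpen_Wd t₁ t₂ hO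
  have hsm := smooth_zh t₁ t₂ hg
  have hf : ContDiffOn ℝ ∞ (fderiv ℝ (zh τ₁ τ₂ ζ)) (Wd D₁ D₂ τ₁ τ₂ O) :=
    hsm.fderiv_of_isOpen hWo (by norm_num)
  have hb : ContDiff ℝ ∞ (fun q : (E × E) × (E × E) => ((q.1.1, q.2.1) : E × E)) := by fun_prop
  have h0 : ContDiffOn ℝ ∞ (fun q : (E × E) × (E × E) => fderiv ℝ (zh τ₁ τ₂ ζ) (q.1.1, q.2.1))
      {q | (q.1.1, q.2.1) ∈ Wd D₁ D₂ τ₁ τ₂ O ∧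
        fderiv ℝ (zh τ₁ τ₂ ζ) (q.1.1, q.2.1) (0, q.2.2) ≠ 0} :=
    hf.comp hb.contDiffOn fun q hq => hq.1
  have h1 : ContDiffOn ℝ ∞ (fun q : (E × E) × (E × E) =>
      fderiv ℝ (zh τ₁ τ₂ ζ) (q.1.1, q.2.1) (q.1.2, 0))
      {q | (q.1.1, q.2.1) ∈ Wd D₁ D₂ τ₁ τ₂ O ∧
        fderiv ℝ (zh τ₁ τ₂ ζ) (q.1.1, q.2.1) (0, q.2.2) ≠ 0} :=
    h0.clm_apply (by fun_prop)
  have h2 : ContDiffOn ℝ ∞ (fun q : (E × E) × (E × E) =>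
      fderiv ℝ (zh τ₁ τ₂ ζ) (q.1.1, q.2.1) (0, q.2.2))
      {q | (q.1.1, q.2.1) ∈ Wd D₁ D₂ τ₁ τ₂ O ∧
        fderiv ℝ (zh τ₁ τ₂ ζ) (q.1.1, q.2.1) (0, q.2.2) ≠ 0} :=
    h0.clm_apply (by fun_prop)
  exact (h2.inner ℝ h1).div (h2.norm_sq ℝ) fun q hq =>
    pow_ne_zero 2 (norm_ne_zero_iff.2 hq.2)

end Pool.Agent.H91.SF
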