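import Pool.Agent.H91.SF.C1
import Pool.Agent.H77.SN.Defs

/-!
# Nondegenerate connecting geodesics have nonconjugate end points
-/

set_option autoImplicit false

open scoped InnerProductSpace Topology ContDiff
open Set Filter

namespace Pool.Agent.H91.SF

open Pool.Agent.H91.GE hiding G1 G11 Nondeg Br exists_br cF smooth_cF Cfg mem_TSet_of_map
open Pool.Agent.H59.LV Pool.Agent.H59.ND Pool.Agent.H77.ND Pool.Agent.H59.Zar

variable {E F N : Type*} [NormedAddCommGroup E] [InnerProductSpace ℝ E] [FiniteDimensional ℝ E]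
  [NormedAddCommGroup F] [InnerProductSpace ℝ F] [FiniteDimensional ℝ F]
  [NormedAddCommGroup N] [NormedSpace ℝ N] [FiniteDimensional ℝ N]
  {S : Set E} {A : E × E → E} {K K₂ : NNReal} {Φ : ℝ → E × E → E × E}
  {Ω₁ Ω₂ : Set N} {ψ₁ ψ₂ : N → E} {P₁ P₂ : E →L[ℝ] N} {W₁ W₂ : Set E}
theorem ndeg_of_cfg (h : GFlow F S A K K₂ Φ) (hp₁ : Patch S Ω₁ ψ₁ P₁ W₁) {x : N × N} {w : N}
    (hc : Cfg Φ Ω₁ Ω₂ ψ₁ ψ₂ x w) (hw : w ≠ 0) :
    Pool.Agent.H77.SN.NDeg Φ S (rp Φ ψ₁ x w).1 ‖fderiv ℝ ψ₁ x.1 w‖ := by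
  intro ξ hξ h0
  have hx1 : x.1 ∈ Ω₁ := hc.1
  have hnd : Nondeg Φ ψ₁ x.1 w := hc.2.2.2
  set p := x.1 with hp
  set v := fderiv ℝ ψ₁ p w with hv
  have hv0 : v ≠ 0 := fun h1 => hw (Patch.inj hp₁ hx1 (h1.trans (map_zero _).symm))
  have hL : 0 < ‖v‖ := norm_pos_iff.2 hv0
  set L := ‖v‖ with hLd
  have hξT : (ψ₁ p, ξ) ∈ TSet S := (mem_TS h.sub (hp₁.mem p hx1)).1 hξ
  obtain ⟨-, -, hξb⟩ := hp₁.of_TSet (hp₁.maps p hx1) hξT
  rw [hp₁.left p hx1] at hξb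
  set b := P₁ ξ with hb
  have h1 : HasDerivAt (fun s : ℝ => ((p, w + s • (L • b)) : N × N)) (0, L • b) 0 := by
    have h3 : HasDerivAt (fun s : ℝ => w + s • (L • b)) (L • b) 0 := by
      simpa using ((hasDerivAt_id (0 : ℝ)).smul_const (L • b)).const_add w
    exact (hasDerivAt_const (0 : ℝ) p).prodMk h3
  have h2 : HasDerivAt (fun s : ℝ => G11 Φ ψ₁ (p, w + s • (L • b)))
      (fderiv ℝ (G11 Φ ψ₁) (p, w) (0, L • b)) 0 := by
    have h3 : HasFDerivAt (G11 Φ ψ₁) (fderiv ℝ (G11 Φ ψ₁) (p, w)) (p, w + (0 : ℝ) • (L • b)) := by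
      rw [zero_smul, add_zero]
      exact ((contDiffAt_G11 h hp₁ (y := (p, w)) hx1).differentiableAt (by simp)).hasFDerivAt
    exact h3.comp_hasDerivAt (0 : ℝ) h1
  have h3 : HasDerivAt (fun s : ℝ => ((ψ₁ p, L⁻¹ • v + s • ξ) : E × E)) (0, ξ) 0 := by
    have h4 : HasDerivAt (fun s : ℝ => L⁻¹ • v + s • ξ) ξ 0 := by
      simpa using ((hasDerivAt_id (0 : ℝ)).smul_const ξ).const_add (L⁻¹ • v)
    exact (hasDerivAt_const (0 : ℝ) (ψ₁ p)).prodMk h4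
  have h4 : HasDerivAt (fun s : ℝ => (Φ L (ψ₁ p, L⁻¹ • v + s • ξ)).1)
      (fderiv ℝ (Φ L) (ψ₁ p, L⁻¹ • v) (0, ξ)).1 0 := by
    have h5 : HasFDerivAt (Φ L) (fderiv ℝ (Φ L) (ψ₁ p, L⁻¹ • v)) (ψ₁ p, L⁻¹ • v + (0 : ℝ) • ξ) := by
      rw [zero_smul, add_zero]
      have h6 : ContDiff ℝ ∞ (Φ L) := h.contDiff.comp (contDiff_const.prodMk contDiff_id)
      exact (h6.differentiable (by simp) _).hasFDerivAt
    exact (ContinuousLinearMap.fst ℝ E E).hasFDerivAt.comp_hasDerivAt (0 : ℝ)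
      (h5.comp_hasDerivAt (0 : ℝ) h3)
  have h5 : (fun s : ℝ => G11 Φ ψ₁ (p, w + s • (L • b))) =ᶠ[𝓝 0]
      fun s : ℝ => (Φ L (ψ₁ p, L⁻¹ • v + s • ξ)).1 := by
    have hcn : ContinuousAt (fun s : ℝ => ‖v + s • (L • ξ)‖) 0 := by fun_prop
    have hev : ∀ᶠ s : ℝ in 𝓝 0, ‖v + s • (L • ξ)‖ < 2 * L := by
      refine hcn.eventually_lt_const ?_
      show ‖v + (0 : ℝ) • (L • ξ)‖ < 2 * L
      rw [zero_smul, add_zero]; linarith
    filter_upwards [hev] with s hs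
    have h6 : fderiv ℝ ψ₁ p (w + s • (L • b)) = v + s • (L • ξ) := by
      rw [map_add, map_smul, map_smul, hξb]
    have h7 : (ψ₁ p, v + s • (L • ξ)) ∈ TSet S := by
      rw [← h6]; exact hp₁.mem_TSet h.sub hx1 _
    show Geo Φ (ψ₁ p) (fderiv ℝ ψ₁ p (w + s • (L • b))) 1 = _
    rw [h6]
    have h8 := (h.Geo_eq h7 hL hs.le 1).1
    rw [mul_one] at h8
    have h9 : L⁻¹ • (v + s • (L • ξ)) = L⁻¹ • v + s • ξ := by
      rw [smul_add, smul_comm L⁻¹ s, smul_smul L⁻¹ L, inv_mul_cancel₀ hL.ne', one_smul]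
    rw [← h9]
    exact h8
  have h6 := h2.unique (h4.congr_of_eventuallyEq h5)
  have h7 : fderiv ℝ (G11 Φ ψ₁) (p, w) (0, L • b) = 0 := h6.trans h0
  have h8 : L • b = 0 := hnd (a₁ := L • b) (a₂ := 0) (by
    show fderiv ℝ (G11 Φ ψ₁) (p, w) (0, L • b) = fderiv ℝ (G11 Φ ψ₁) (p, w) (0, 0)
    rw [h7]
    exact (map_zero (fderiv ℝ (G11 Φ ψ₁) (p, w))).symm)
  have h9 : b = 0 := (smul_eq_zero.1 h8).resolve_left hL.ne'
  rw [← hξb, h9, map_zero]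

end Pool.Agent.H91.SF
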