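import Pool.Agent.H91.SF.Theta
import Pool.Agent.H91.SF.C1
import Pool.Agent.H91.SF.Nd
import Pool.Agent.H20.C3.Zeta
import Pool.Agent.H52.S2.TrC2

/-!
# Class returns satisfy all the identities of section 2
-/

set_option autoImplicit false

open scoped InnerProductSpace Topology ContDiff
open Set Filter

namespace Pool.Agent.H91.SF

open Pool.Agent.H91.GE hiding G1 G11 Nondeg Br exists_br cF smooth_cF Cfg mem_TSet_of_map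
open Pool.Agent.H59.LV Pool.Agent.H59.ND Pool.Agent.H77.ND Pool.Agent.H59.Zar

variable {E F N : Type*} [NormedAddCommGroup E] [InnerProductSpace ℝ E] [FiniteDimensional ℝ E]
  [NormedAddCommGroup F] [InnerProductSpace ℝ F] [FiniteDimensional ℝ F]
  [NormedAddCommGroup N] [NormedSpace ℝ N] [FiniteDimensional ℝ N]
  {S : Set E} {A : E × E → E} {K K₂ : NNReal} {Φ : ℝ → E × E → E × E}
  {Ω₁ Ω₂ : Set N} {ψ₁ ψ₂ : N → E} {P₁ P₂ : E →L[ℝ] N} {W₁ W₂ : Set E}  {O : Set (N × N)} {ζ : N × N → E} {D₁ D₂ : Set E} {τ₁ τ₂ : E → N}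

open Pool.Agent.H77.SN Pool.Agent.H52.S2

theorem split_fst (L : E × E →L[ℝ] E) (u : E) (r : ℝ) : L (r • u, 0) = r • L (u, 0) := by
  have h1 : ((r • u, 0) : E × E) = r • (u, 0) := by ext <;> simp
  rw [h1, map_smul]

/-- The open set on which everything is defined. -/
def Dm (D₁ D₂ : Set E) (τ₁ τ₂ : E → N) (O : Set (N × N)) (z : E × E → E) :
    Set ((E × E) × (E × E)) :=
  {q | (q.1.1, q.2.1) ∈ Wd D₁ D₂ τ₁ τ₂ O ∧ fderiv ℝ z (q.1.1, q.2.1) (0, q.2.2) ≠ 0}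

theorem isOpen_Dm (t₁ : Tau S Ω₁ P₁ W₁ D₁ τ₁) (t₂ : Tau S Ω₂ P₂ W₂ D₂ τ₂) (hO : IsOpen O)
    (hg : Germ S O ζ) : IsOpen (Dm D₁ D₂ τ₁ τ₂ O (zh τ₁ τ₂ ζ)) := by
  have hWo := isOpen_Wd t₁ t₂ hO
  have hsm := smooth_zh t₁ t₂ hg
  have hb : Continuous (fun q : (E × E) × (E × E) => ((q.1.1, q.2.1) : E × E)) := by fun_prop
  have h0 : ContinuousOn (fun q : (E × E) × (E × E) => fderiv ℝ (zh τ₁ τ₂ ζ) (q.1.1, q.2.1))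
      ((fun q : (E × E) × (E × E) => ((q.1.1, q.2.1) : E × E)) ⁻¹' Wd D₁ D₂ τ₁ τ₂ O) :=
    (hsm.continuousOn_fderiv_of_isOpen hWo (by simp)).comp hb.continuousOn fun q hq => hq
  have h1 : ContinuousOn (fun q : (E × E) × (E × E) =>
      fderiv ℝ (zh τ₁ τ₂ ζ) (q.1.1, q.2.1) (0, q.2.2))
      ((fun q : (E × E) × (E × E) => ((q.1.1, q.2.1) : E × E)) ⁻¹' Wd D₁ D₂ τ₁ τ₂ O) :=
    h0.clm_apply (by fun_prop)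
  exact h1.isOpen_inter_preimage (hWo.preimage hb) isOpen_ne

/-- **All the identities of section 2 at a class return.** -/
theorem cls_of_class {𝒪 : Set ((E × E) × (E × E))} {𝒞 : Set ((N × N) × N)} {ε : ℝ}
    (hdim : Module.finrank ℝ E = Module.finrank ℝ F + Module.finrank ℝ N)
    (h : GFlow F S A K K₂ Φ)
    (hd : CD Φ S Ω₁ Ω₂ ψ₁ ψ₂ P₁ P₂ W₁ W₂ O ζ ε 𝒪 𝒞) (t₁ : Tau S Ω₁ P₁ W₁ D₁ τ₁)
    (t₂ : Tau S Ω₂ P₂ W₂ D₂ τ₂) {c : (N × N) × N} (hc : c ∈ 𝒞)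
    (hq : rp Φ ψ₁ c.1 c.2 ∈ 𝒪)
    (hqD : rp Φ ψ₁ c.1 c.2 ∈ Dm D₁ D₂ τ₁ τ₂ O (zh τ₁ τ₂ ζ)) :
    (rp Φ ψ₁ c.1 c.2).2 = Φ ‖fderiv ℝ ψ₁ c.1.1 c.2‖ (rp Φ ψ₁ c.1 c.2).1 ∧
      Cls Φ S (zh τ₁ τ₂ ζ) (nu (zh τ₁ τ₂ ζ)) (rp Φ ψ₁ c.1 c.2).1 ‖fderiv ℝ ψ₁ c.1.1 c.2‖ := by
  obtain ⟨x, w⟩ := c
  simp only at hq hqD ⊢
  obtain ⟨hxO, a, hCR, haε⟩ := hd.cls _ hc
  simp only at hxO hCR
  have hw0 : w ≠ 0 := hCR.2.1
  have hcf := hCR.1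
  obtain ⟨r1, hL, r3⟩ := rp_eq h hd.patch₁ hcf.1 hw0
  obtain ⟨-, u2, b1, b2, p1, p2, p3, p4⟩ := rp_chart h hd.patch₁ hd.patch₂ hcf hw0
  have hε : ε ≠ 0 := by
    rintro rfl
    rw [zero_mul] at haε
    exact lt_irrefl _ haε
  set L : ℝ := ‖fderiv ℝ ψ₁ x.1 w‖ with hLd
  set W : E × E := (rp Φ ψ₁ x w).1 with hWd
  have hqe : rp Φ ψ₁ x w = (W, Φ L W) := Prod.ext rfl r3
  have hR := retRel h hdim
  have hmem : (W, Φ L W) ∈ RR Φ S := flow_mem_Ret hdim h r1 L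
  set z := zh τ₁ τ₂ ζ with hz
  have hDo : IsOpen (Dm D₁ D₂ τ₁ τ₂ O z) := isOpen_Dm t₁ t₂ hd.isOpen hd.germ
  have hqD' : (W, Φ L W) ∈ Dm D₁ D₂ τ₁ τ₂ O z := by rw [← hqe]; exact hqD
  have hq' : (W, Φ L W) ∈ 𝒪 := by rw [← hqe]; exact hq
  have hWW : (W.1, (Φ L W).1) ∈ Wd D₁ D₂ τ₁ τ₂ O := hqD'.1
  have hopen : 𝒪 ∩ Dm D₁ D₂ τ₁ τ₂ O z ∈ 𝓝 (W, Φ L W) :=
    (hd.open'.inter hDo).mem_nhds ⟨hq', hqD'⟩
  have hc1 : ∀ᶠ q in 𝓝[RR Φ S] (W, Φ L W),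
      fderiv ℝ z (q.1.1, q.2.1) (q.1.2, -(nu z q • q.2.2)) = 0 := by
    filter_upwards [mem_nhdsWithin_of_mem_nhds hopen, self_mem_nhdsWithin] with q hq1 hqR
    exact c1_mem h hd t₁ t₂ hq1.1 hqR hq1.2.1
  have hne : nu z (W, Φ L W) ≠ 0 :=
    nu_ne (dz_fst_ne h.sub hd.patch₁ t₁ t₂ hd.isOpen hd.germ hmem.1 hmem.2.1 hWW)
      (c1_mem h hd t₁ t₂ hq' hmem hWW)
  have hsm : ∃ O' ∈ 𝓝 (W, Φ L W), ContDiffOn ℝ ∞ (nu z) O' :=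
    ⟨_, hDo.mem_nhds hqD', smooth_nu t₁ t₂ hd.isOpen hd.germ⟩
  have hgd : Gd S z W.1 (Φ L W).1 :=
    gd_zh h.sub hd.patch₁ hd.patch₂ t₁ t₂ hd.isOpen hd.germ hWW
  have hC : C1At Φ S z (nu z) (W, Φ L W) := ⟨hmem, hgd, hsm, hne, hc1⟩
  obtain ⟨s, hs0, hsL, hs⟩ := Th_exact h hd.patch₁ hd.patch₂ t₁ t₂ hd.isOpen hd.germ hCR haε
    (by rw [hqe]; exact hWW)
  have hZ : ZMap Φ S z W L s (Th ε z) :=
    { smooth := Th_smooth h.sub hd.patch₁ hd.patch₂ t₁ t₂ hd.isOpen hd.germ hε hmem hWW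
      fst := Eventually.of_forall fun q => rfl
      self := by rw [← hqe]; exact hs
      left := by
        filter_upwards [mem_nhdsWithin_of_mem_nhds hopen, self_mem_nhdsWithin] with q hq1 hqR
        exact (Th_mem hdim h (isClosed_Ret h) hd t₁ t₂ hq1.1 hqR hq1.2.1).1
      right := by
        filter_upwards [mem_nhdsWithin_of_mem_nhds hopen, self_mem_nhdsWithin] with q hq1 hqR
        exact (Th_mem hdim h (isClosed_Ret h) hd t₁ t₂ hq1.1 hqR hq1.2.1).2 }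
  have hS₁ : W.1 ∈ S := fst_mem_TSet hmem.1.1
  have hS₂ : (Φ L W).1 ∈ S := fst_mem_TSet hmem.2.1.1
  have p2' : P₂ (Φ L W).1 = x.2 := by rw [← r3]; exact p2
  have key : ∀ a' ∈ ZT (UT S) W, ∀ c : ℝ,
      fderiv ℝ z (W.1, (Φ L W).1) (a'.1, (fderiv ℝ (Φ L) W a').1)
        = c • fderiv ℝ z (W.1, (Φ L W).1) (W.2, 0) →
      fderiv ℝ ζ x (P₁ a'.1, P₂ (fderiv ℝ (Φ L) W a').1) = (c * L⁻¹) • fderiv ℝ ζ x (w, 0) := by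
    intro a' ha' c hac
    have g1 : a'.1 ∈ ZT S W.1 := Pool.Agent.H59.Zar.fst_mem_TS r1 ha'
    have g2 : (fderiv ℝ (Φ L) W a').1 ∈ ZT S (Φ L W).1 :=
      Pool.Agent.H59.Zar.fst_mem_TS hmem.2.1 ((flow_ZTU h r1 L).2 ha')
    have g3 : W.2 ∈ ZT S W.1 := snd_mem_TS h.sub r1
    rw [fderiv_zh_tan t₁ t₂ hd.isOpen hd.germ hWW hS₁ hS₂ g1 g2,
      fderiv_zh_tan t₁ t₂ hd.isOpen hd.germ hWW hS₁ hS₂ g3 (Submodule.zero_mem _), map_zero] at hac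
    have e1 : (P₁ W.1, P₂ (Φ L W).1) = x := Prod.ext p1 p2'
    have e2 : ((P₁ W.2, 0) : N × N) = L⁻¹ • (w, 0) := by
      rw [p3]; ext <;> simp
    have e3 : fderiv ℝ ζ (P₁ (W.1, (Φ L W).1).1, P₂ (W.1, (Φ L W).1).2) = fderiv ℝ ζ x := by
      show fderiv ℝ ζ (P₁ W.1, P₂ (Φ L W).1) = _
      rw [e1]
    rw [e3, e2, map_smul, smul_smul] at hac
    exact hac
  refine ⟨r3, ?_⟩
  exact
    { mem := r1
      pos := hL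
      nd := ndeg_of_cfg h hd.patch₁ hcf hw0
      gd := hgd
      smooth := hsm
      ne := hne
      c1 := hc1
      tr := hC.tr h hdim
      tr' := hC.tr' h hdim
      c2 := hZ.c2 h hdim hC
      c2' := hZ.c2' h hdim hC
      c3 := by
        intro a' ha' b' hb' c d hac hbd
        exact Pool.Agent.H20.C3.c3_chart hdim h hd.patch₁ hd.patch₂ hd.isOpen hd.germ hxO hCR ha' hb'
          (key a' ha' c hac) (key b' hb' d hbd) }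

/-- Two classes with injective joint derivative have different factors. -/
theorem nu_ne_nu (hsub : IsSub F S) (hp₁ : Patch S Ω₁ ψ₁ P₁ W₁) (t₁ : Tau S Ω₁ P₁ W₁ D₁ τ₁)
    (t₂ : Tau S Ω₂ P₂ W₂ D₂ τ₂) (hO : IsOpen O) {ζ₁ ζ₂ : N × N → E} (hg₁ : Germ S O ζ₁)
    (hg₂ : Germ S O ζ₂)
    (hj : ∀ x ∈ O, ∀ b : N × N, fderiv ℝ ζ₁ x b = 0 → fderiv ℝ ζ₂ x b = 0 → b = 0)
    {q : (E × E) × (E × E)} (hq₁ : q.1 ∈ UT S) (hq₂ : q.2 ∈ UT S)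
    (hW : (q.1.1, q.2.1) ∈ Wd D₁ D₂ τ₁ τ₂ O)
    (h₁ : fderiv ℝ (zh τ₁ τ₂ ζ₁) (q.1.1, q.2.1) (q.1.2, -(nu (zh τ₁ τ₂ ζ₁) q • q.2.2)) = 0)
    (h₂ : fderiv ℝ (zh τ₁ τ₂ ζ₂) (q.1.1, q.2.1) (q.1.2, -(nu (zh τ₁ τ₂ ζ₂) q • q.2.2)) = 0) :
    nu (zh τ₁ τ₂ ζ₁) q ≠ nu (zh τ₁ τ₂ ζ₂) q := by
  intro he
  have hS₁ : q.1.1 ∈ S := fst_mem_TSet hq₁.1
  have hS₂ : q.2.1 ∈ S := fst_mem_TSet hq₂.1
  have hu : q.1.2 ∈ ZT S q.1.1 := snd_mem_TS hsub hq₁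
  have hv : q.2.2 ∈ ZT S q.2.1 := snd_mem_TS hsub hq₂
  rw [← he] at h₂
  have hv' : -(nu (zh τ₁ τ₂ ζ₁) q • q.2.2) ∈ ZT S q.2.1 :=
    Submodule.neg_mem _ (Submodule.smul_mem _ _ hv)
  rw [fderiv_zh_tan t₁ t₂ hO hg₁ hW hS₁ hS₂ hu hv'] at h₁
  rw [fderiv_zh_tan t₁ t₂ hO hg₂ hW hS₁ hS₂ hu hv'] at h₂
  have h3 := hj _ (mem_O_of_Wd t₁ t₂ hW hS₁ hS₂) _ h₁ h₂
  have h4 : P₁ q.1.2 = 0 := congrArg Prod.fst h3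
  have h5 := P_inj hsub hp₁ (t₁.sub hW.1.1) hS₁ hu h4
  have h6 := hq₁.2
  rw [h5, norm_zero] at h6
  exact zero_ne_one h6

end Pool.Agent.H91.SF
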