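import Pool.Agent.H77.ND.Main
import Pool.Agent.H59.Zar.Rel

/-!
# Returns, classes of connecting geodesics: definitions

* `Ret`: the closed relation of returns.
* `rp x w`: the (exact) return given by the connecting geodesic `w` over `x`.
* `Germ`: a smooth crossing point `ζ` of `x` whose partial derivatives are injective.
* `CR ζ x w a`: `w` is a nondegenerate connecting geodesic over `x` whose branch passes through `ζ`;
  `a` is the (signed) derivative of `ζ` when the first end point moves along the geodesic.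
* `CD`: near every return of `𝒪` the set `𝒞` of exact returns of the class of `ζ` is dense.
-/

set_option autoImplicit false

open scoped InnerProductSpace Topology ContDiff
open Set Filter

namespace Pool.Agent.H91.SF

open Pool.Agent.H91.GE hiding G1 G11 Nondeg Br exists_br cF smooth_cF Cfg mem_TSet_of_map
open Pool.Agent.H59.LV Pool.Agent.H59.ND Pool.Agent.H77.ND Pool.Agent.H59.Zar

variable {E F N : Type*} [NormedAddCommGroup E] [InnerProductSpace ℝ E] [FiniteDimensional ℝ E]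
  [NormedAddCommGroup F] [InnerProductSpace ℝ F] [FiniteDimensional ℝ F]
  [NormedAddCommGroup N] [NormedSpace ℝ N] [FiniteDimensional ℝ N]
  {S : Set E} {A : E × E → E} {K K₂ : NNReal} {Φ : ℝ → E × E → E × E}
  {Ω₁ Ω₂ : Set N} {ψ₁ ψ₂ : N → E} {P₁ P₂ : E →L[ℝ] N} {W₁ W₂ : Set E}

/-- The relation of returns of the geodesic flow on the unit tangent bundle. -/
def Ret (Φ : ℝ → E × E → E × E) (S : Set E) : Set ((E × E) × (E × E)) :=
  {p | p.1 ∈ UT S ∧ p.2 ∈ UT S ∧ Leads Φ S p.1 p.2}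

/-- The two end points of the arc of length `L` issuing from `w` are not conjugate. -/
def ND (Φ : ℝ → E × E → E × E) (S : Set E) (w : E × E) (L : ℝ) : Prop :=
  ∀ ξ : E, (w.1, ξ) ∈ TSet S → (fderiv ℝ (Φ L) w (0, ξ)).1 = 0 → ξ = 0

/-- The exact return given by the connecting geodesic `w` over `x`. -/
noncomputable def rp (Φ : ℝ → E × E → E × E) (ψ₁ : N → E) (x : N × N) (w : N) :
    (E × E) × (E × E) :=
  ((ψ₁ x.1, ‖fderiv ℝ ψ₁ x.1 w‖⁻¹ • fderiv ℝ ψ₁ x.1 w),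
    (G1 Φ ψ₁ (x.1, w) 1, ‖fderiv ℝ ψ₁ x.1 w‖⁻¹ • deriv (G1 Φ ψ₁ (x.1, w)) 1))

/-- A smooth crossing point which moves with each of the two end points. -/
structure Germ (S : Set E) (O : Set (N × N)) (ζ : N × N → E) : Prop where
  smooth : ContDiffOn ℝ ∞ ζ O
  mem : ∀ x ∈ O, ζ x ∈ S
  inj₁ : ∀ x ∈ O, ∀ b : N, fderiv ℝ ζ x (b, 0) = 0 → b = 0
  inj₂ : ∀ x ∈ O, ∀ b : N, fderiv ℝ ζ x (0, b) = 0 → b = 0

/-- `w` is a nondegenerate connecting geodesic over `x` whose branch passes through `ζ`. -/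
def CR (Φ : ℝ → E × E → E × E) (Ω₁ Ω₂ : Set N) (ψ₁ ψ₂ : N → E) (ζ : N × N → E) (x : N × N)
    (w : N) (a : ℝ) : Prop :=
  Cfg Φ Ω₁ Ω₂ ψ₁ ψ₂ x w ∧ w ≠ 0 ∧
    ∃ (O : Set (N × N)) (V : Set N) (κ : N × N → N) (θ : N × N → ℝ),
      Lf Φ Ω₁ Ω₂ ψ₁ ψ₂ ζ O V κ θ ∧ x ∈ O ∧ κ x = w ∧ 0 < θ x ∧ θ x < 1 ∧
        fderiv ℝ ζ x (w, 0) = a • deriv (G1 Φ ψ₁ (x.1, w)) (θ x)

/-- Class data: in the open set `𝒪` of pairs of vectors the exact returns given by the set `𝒞` of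
connecting geodesics, all of the class of `ζ` with sign `ε`, are dense among all returns. -/
structure CD (Φ : ℝ → E × E → E × E) (S : Set E) (Ω₁ Ω₂ : Set N) (ψ₁ ψ₂ : N → E)
    (P₁ P₂ : E →L[ℝ] N) (W₁ W₂ : Set E) (O : Set (N × N)) (ζ : N × N → E) (ε : ℝ)
    (𝒪 : Set ((E × E) × (E × E))) (𝒞 : Set ((N × N) × N)) : Prop where
  patch₁ : Patch S Ω₁ ψ₁ P₁ W₁
  patch₂ : Patch S Ω₂ ψ₂ P₂ W₂
  isOpen : IsOpen O
  germ : Germ S O ζ
  open' : IsOpen 𝒪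
  base : ∀ q ∈ 𝒪, q.1.1 ∈ W₁ ∧ q.2.1 ∈ W₂ ∧ (P₁ q.1.1, P₂ q.2.1) ∈ O
  cls : ∀ c ∈ 𝒞, c.1 ∈ O ∧ ∃ a : ℝ, CR Φ Ω₁ Ω₂ ψ₁ ψ₂ ζ c.1 c.2 a ∧ 0 < ε * a
  dense : 𝒪 ∩ Ret Φ S ⊆ closure ((fun c : (N × N) × N => rp Φ ψ₁ c.1 c.2) '' 𝒞)

end Pool.Agent.H91.SF
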