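import Pool.Agent.H96.SF.Cover3

/-!
# Density of classes
-/

set_option autoImplicit false

open scoped InnerProductSpace Topology ContDiff
open Set Filter

namespace Pool.Agent.H91.SF

open Pool.Agent.H91.GE hiding G1 G11 Nondeg Br exists_br cF smooth_cF Cfg mem_TSet_of_map
open Pool.Agent.H59.LV Pool.Agent.H59.ND Pool.Agent.H77.ND Pool.Agent.H59.Zar
open Pool.Agent.H96.SF (Sheet Cl Jn baire_closed cover_pt exists_sheets Sheet.ζ)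

variable {E F N : Type*} [NormedAddCommGroup E] [InnerProductSpace ℝ E] [FiniteDimensional ℝ E]
  [NormedAddCommGroup F] [InnerProductSpace ℝ F] [FiniteDimensional ℝ F]
  [NormedAddCommGroup N] [NormedSpace ℝ N] [FiniteDimensional ℝ N]
  {S : Set E} {A : E × E → E} {K K₂ : NNReal} {Φ : ℝ → E × E → E × E}
  {Ω₁ Ω₂ : Set N} {ψ₁ ψ₂ : N → E} {P₁ P₂ : E →L[ℝ] N} {W₁ W₂ : Set E}

omit [FiniteDimensional ℝ E] [FiniteDimensional ℝ N] in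
/-- The set where a restriction of the derivative is injective is open. -/
theorem isOpen_inj {M G : Type*} [NormedAddCommGroup M] [NormedSpace ℝ M] [FiniteDimensional ℝ M]
    [NormedAddCommGroup G] [NormedSpace ℝ G]
    {O : Set (N × N)} (hO : IsOpen O) {f : N × N → G} (hf : ContDiffOn ℝ ∞ f O)
    (J : M →L[ℝ] N × N) : IsOpen {x | x ∈ O ∧ ∀ v : M, fderiv ℝ f x (J v) = 0 → v = 0} := by
  have hiff : ∀ x, (∀ v : M, fderiv ℝ f x (J v) = 0 → v = 0) ↔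
      Function.Injective ((fderiv ℝ f x) ∘L J : M →L[ℝ] G) := by
    intro x
    exact (injective_iff_map_eq_zero ((fderiv ℝ f x) ∘L J : M →L[ℝ] G)).symm
  have hc : ContinuousOn (fun x => (fderiv ℝ f x) ∘L J) O :=
    (hf.continuousOn_fderiv_of_isOpen hO (by simp)).clm_comp continuousOn_const
  have hop : IsOpen {L : M →L[ℝ] G | Function.Injective L} :=
    ContinuousLinearMap.isOpen_injective
  have h1 := hc.isOpen_inter_preimage hO hop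
  have h2 : {x | x ∈ O ∧ ∀ v : M, fderiv ℝ f x (J v) = 0 → v = 0}
      = O ∩ (fun x => (fderiv ℝ f x) ∘L J) ⁻¹' {L : M →L[ℝ] G | Function.Injective L} := by
    ext x
    exact and_congr_right fun _ => hiff x
  rw [h2]
  exact h1

/-- The good pairs of two sheets. -/
def GG (s s' : Sheet Φ Ω₁ Ω₂ ψ₁ ψ₂) : Set (N × N) :=
  {x | (x ∈ s.O ∧ x ∈ s'.O) ∧
    ((∀ b : N, fderiv ℝ s.ζ x (0, b) = 0 → b = 0) ∧
      ∀ b : N, fderiv ℝ s.ζ x (b, 0) = 0 → b = 0) ∧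
    ((∀ b : N, fderiv ℝ s'.ζ x (0, b) = 0 → b = 0) ∧
      ∀ b : N, fderiv ℝ s'.ζ x (b, 0) = 0 → b = 0) ∧ Jn s.ζ s'.ζ x}

/-- The set where the joint derivative is injective. -/
def JG (s s' : Sheet Φ Ω₁ Ω₂ ψ₁ ψ₂) : Set (N × N) := {x | (x ∈ s.O ∧ x ∈ s'.O) ∧ Jn s.ζ s'.ζ x}

theorem isOpen_JG (h : GFlow F S A K K₂ Φ) (hp₁ : Patch S Ω₁ ψ₁ P₁ W₁)
    (s s' : Sheet Φ Ω₁ Ω₂ ψ₁ ψ₂) : IsOpen (JG s s') := by
  have hO : IsOpen (s.O ∩ s'.O) := s.cr.isOpen.inter s'.cr.isOpen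
  have h1 : ContDiffOn ℝ ∞ s.ζ (s.O ∩ s'.O) := (s.smooth_ζ h hp₁).mono inter_subset_left
  have h2 : ContDiffOn ℝ ∞ s'.ζ (s.O ∩ s'.O) := (s'.smooth_ζ h hp₁).mono inter_subset_right
  have h3 := isOpen_inj hO (h1.prodMk h2) (ContinuousLinearMap.id ℝ (N × N))
  have h4 : JG s s' = {x | x ∈ s.O ∩ s'.O ∧ ∀ v : N × N,
      fderiv ℝ (fun x => (s.ζ x, s'.ζ x)) x (ContinuousLinearMap.id ℝ (N × N) v) = 0 → v = 0} := by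
    ext x
    refine and_congr_right fun hx => ?_
    have h5 : fderiv ℝ (fun x => (s.ζ x, s'.ζ x)) x = (fderiv ℝ s.ζ x).prod (fderiv ℝ s'.ζ x) :=
      ((hasFDerivAt_of_open hO h1 hx).prodMk (hasFDerivAt_of_open hO h2 hx)).fderiv
    rw [h5]
    constructor
    · intro hj v hv
      exact hj v (congrArg Prod.fst hv) (congrArg Prod.snd hv)
    · intro hj v hv hv'
      exact hj v (Prod.ext hv hv')
  rw [h4]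
  exact h3

theorem isOpen_GG (h : GFlow F S A K K₂ Φ) (hp₁ : Patch S Ω₁ ψ₁ P₁ W₁)
    (s s' : Sheet Φ Ω₁ Ω₂ ψ₁ ψ₂) : IsOpen (GG s s') := by
  have a1 := isOpen_inj s.cr.isOpen (s.smooth_ζ h hp₁) (ContinuousLinearMap.inr ℝ N N)
  have a2 := isOpen_inj s.cr.isOpen (s.smooth_ζ h hp₁) (ContinuousLinearMap.inl ℝ N N)
  have b1 := isOpen_inj s'.cr.isOpen (s'.smooth_ζ h hp₁) (ContinuousLinearMap.inr ℝ N N)
  have b2 := isOpen_inj s'.cr.isOpen (s'.smooth_ζ h hp₁) (ContinuousLinearMap.inl ℝ N N)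
  have hj := isOpen_JG h hp₁ s s'
  have he : GG s s' = ({x | x ∈ s.O ∧ ∀ v : N, fderiv ℝ s.ζ x
      (ContinuousLinearMap.inr ℝ N N v) = 0 → v = 0} ∩ {x | x ∈ s.O ∧ ∀ v : N, fderiv ℝ s.ζ x
      (ContinuousLinearMap.inl ℝ N N v) = 0 → v = 0}) ∩ (({x | x ∈ s'.O ∧ ∀ v : N,
      fderiv ℝ s'.ζ x (ContinuousLinearMap.inr ℝ N N v) = 0 → v = 0} ∩ {x | x ∈ s'.O ∧
      ∀ v : N, fderiv ℝ s'.ζ x (ContinuousLinearMap.inl ℝ N N v) = 0 → v = 0}) ∩ JG s s') := by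
    ext x
    constructor
    · rintro ⟨⟨h1, h2⟩, ⟨h3, h4⟩, ⟨h5, h6⟩, h7⟩
      exact ⟨⟨⟨h1, h3⟩, ⟨h1, h4⟩⟩, ⟨⟨h2, h5⟩, ⟨h2, h6⟩⟩, ⟨⟨h1, h2⟩, h7⟩⟩
    · rintro ⟨⟨⟨h1, h3⟩, ⟨-, h4⟩⟩, ⟨⟨h2, h5⟩, ⟨-, h6⟩⟩, ⟨-, h7⟩⟩
      exact ⟨⟨h1, h2⟩, ⟨h3, h4⟩, ⟨h5, h6⟩, h7⟩
  rw [he]
  exact (a1.inter a2).inter ((b1.inter b2).inter hj)

/-- The local form: patches are given. -/
theorem exists_CD_patch (hdim : Module.finrank ℝ E = Module.finrank ℝ F + Module.finrank ℝ N)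
    (hN : 1 < Module.finrank ℝ N) (h : GFlow F S A K K₂ Φ) (hsec : Secure S)
    (hp₁ : Patch S Ω₁ ψ₁ P₁ W₁) (hp₂ : Patch S Ω₂ ψ₂ P₂ W₂)
    {q₀ : (E × E) × (E × E)} (hq₀ : q₀ ∈ Ret Φ S) (h1 : q₀.1.1 ∈ W₁) (h2 : q₀.2.1 ∈ W₂)
    {𝒪₀ : Set ((E × E) × (E × E))} (h𝒪₀ : 𝒪₀ ∈ 𝓝 q₀) (hcl : IsClosed (Ret Φ S)) :
    ∃ (O : Set (N × N))
      (ζ₁ ζ₂ : N × N → E) (ε₁ ε₂ : ℝ) (𝒪 : Set ((E × E) × (E × E))) (𝒞 : Set ((N × N) × N)),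
      CD Φ S Ω₁ Ω₂ ψ₁ ψ₂ P₁ P₂ W₁ W₂ O ζ₁ ε₁ 𝒪 𝒞 ∧
      CD Φ S Ω₁ Ω₂ ψ₁ ψ₂ P₁ P₂ W₁ W₂ O ζ₂ ε₂ 𝒪 𝒞 ∧
      (∀ x ∈ O, ∀ b : N × N, fderiv ℝ ζ₁ x b = 0 → fderiv ℝ ζ₂ x b = 0 → b = 0) ∧
      𝒪 ⊆ 𝒪₀ ∧ (∃ c ∈ 𝒞, rp Φ ψ₁ c.1 c.2 ∈ 𝒪) := by
  obtain ⟨T, hTc, hT⟩ := exists_sheets hdim h hp₁ hp₂
  have : Countable T := hTc.to_subtype
  -- the base map
  let π : (E × E) × (E × E) → N × N := fun q => (P₁ q.1.1, P₂ q.2.1)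
  have hπ : Continuous π := (P₁.continuous.comp continuous_fst.fst).prodMk
    (P₂.continuous.comp continuous_snd.fst)
  -- the open set
  obtain ⟨U₀, hU₀, hU₀o, hqU₀⟩ := mem_nhds_iff.1 h𝒪₀
  set U : Set ((E × E) × (E × E)) := U₀ ∩ ({q | q.1.1 ∈ W₁} ∩ {q | q.2.1 ∈ W₂}) with hU
  have hUo : IsOpen U := hU₀o.inter ((hp₁.V_open.preimage continuous_fst.fst).inter
    (hp₂.V_open.preimage continuous_snd.fst))
  have hqU : q₀ ∈ U := ⟨hqU₀, h1, h2⟩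
  -- the exceptional pairs
  set Mg : Set (N × N) := {x : N × N | x.1 ∈ Ω₁ ∧ x.2 ∈ Ω₂ ∧ ¬ Gen Φ S Ω₁ Ω₂ ψ₁ ψ₂ x} ∪
    ⋃ p : T × T, frontier (JG p.1.1 p.2.1) with hMg
  have hMgm : IsMeagre Mg := by
    refine (gen_meagre hdim hN h hsec hp₁ hp₂).union (isMeagre_iUnion fun p => ?_)
    have ho := isOpen_JG h hp₁ p.1.1 p.2.1
    have : IsNowhereDense (frontier (JG p.1.1 p.2.1)) := by
      rw [isClosed_frontier.isNowhereDense_iff, ← frontier_compl]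
      exact interior_frontier ho.isClosed_compl
    exact this.isMeagre
  obtain ⟨𝓢, h𝓢, h𝓢c, hMg𝓢⟩ := isMeagre_iff_countable_union_isNowhereDense.1 hMgm
  have : Countable 𝓢 := h𝓢c.to_subtype
  let sg : Bool → ℝ := fun b => if b then 1 else -1
  let C : ((T × T) × (Bool × Bool)) ⊕ 𝓢 → Set ((E × E) × (E × E)) := fun i =>
    match i with
    | Sum.inl p => closure (Cl Φ Ω₁ Ω₂ ψ₁ ψ₂ (GG p.1.1.1 p.1.2.1) (Sheet.ζ p.1.1.1)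
        (Sheet.ζ p.1.2.1) (sg p.2.1) (sg p.2.2))
    | Sum.inr t => π ⁻¹' closure t.1
  have hC : ∀ i, IsClosed (C i) := by
    intro i
    cases i with
    | inl p => exact isClosed_closure
    | inr t => exact isClosed_closure.preimage hπ
  have hcov : Ret Φ S ∩ U ⊆ ⋃ i, C i := by
    rintro q ⟨hqR, hqU⟩
    obtain ⟨⟨X, u⟩, Y, v⟩ := q
    have hqW1 : X ∈ W₁ := hqU.2.1
    have hqW2 : Y ∈ W₂ := hqU.2.2
    obtain ⟨⟨hT1, -⟩, ⟨hT2, -⟩, hl⟩ := hqR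
    simp only at hT1 hT2 hl
    obtain ⟨hx1, hX, -⟩ := hp₁.of_TSet hqW1 hT1
    obtain ⟨hx2, hY, -⟩ := hp₂.of_TSet hqW2 hT2
    set x : N × N := (P₁ X, P₂ Y) with hx
    have hX' : ψ₁ x.1 = X := hX
    have hY' : ψ₂ x.2 = Y := hY
    by_cases hxM : x ∈ Mg
    · obtain ⟨t, ht, hxt⟩ := hMg𝓢 hxM
      exact mem_iUnion.2 ⟨Sum.inr ⟨t, ht⟩, subset_closure hxt⟩
    have hgen : Gen Φ S Ω₁ Ω₂ ψ₁ ψ₂ x := by
      by_contra hc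
      exact hxM (Or.inl ⟨hx1, hx2, hc⟩)
    obtain ⟨s, hs, s', hs', hxs, hxs', i1, i2, hj, ε, ε', hε, hε', hcl⟩ :=
      cover_pt hdim h hsec hp₁ hp₂ hT (x := x) hx1 hx2 hgen (u := u) (v := v)
        (by rw [hX', hY']; exact hl)
    have hJ : Jn s.ζ s'.ζ x := by
      by_contra hn
      refine hxM (Or.inr (mem_iUnion.2 ⟨(⟨s, hs⟩, ⟨s', hs'⟩), ?_⟩))
      have ho := isOpen_JG h hp₁ s s'
      rw [ho.frontier_eq]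
      refine ⟨?_, fun hc => hn hc.2⟩
      rw [mem_closure_iff_nhds]
      intro V hV
      by_contra hem
      apply hj
      have e1 : ∀ᶠ y in 𝓝 x, y ∈ s.O := s.cr.isOpen.mem_nhds hxs
      have e2 : ∀ᶠ y in 𝓝 x, y ∈ s'.O := s'.cr.isOpen.mem_nhds hxs'
      filter_upwards [hV, e1, e2] with y hy h3 h4 h5
      exact hem ⟨y, hy, ⟨h3, h4⟩, h5⟩
    have hxG : x ∈ GG s s' := ⟨⟨hxs, hxs'⟩, i1, i2, hJ⟩
    have hb : ∀ {ε : ℝ}, (ε = 1 ∨ ε = -1) → ∃ b : Bool, sg b = ε := by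
      rintro ε (rfl | rfl)
      · exact ⟨true, rfl⟩
      · exact ⟨false, rfl⟩
    obtain ⟨b, rfl⟩ := hb hε
    obtain ⟨b', rfl⟩ := hb hε'
    refine mem_iUnion.2 ⟨Sum.inl ((⟨s, hs⟩, ⟨s', hs'⟩), (b, b')), ?_⟩
    rw [hX', hY'] at hcl
    refine closure_mono ?_ hcl
    rintro q ⟨y, hy, w, a, a', h3⟩
    have hyx : y = x := hy
    exact ⟨y, by rw [hyx]; exact hxG, w, a, a', h3⟩
  obtain ⟨i, V, hVo, hVU, ⟨q₁, hq₁R, hq₁V⟩, hVC⟩ := baire_closed hcl hUo ⟨q₀, hq₀, hqU⟩ hC hcov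
  cases i with
  | inr t =>
    exfalso
    have hint : interior (closure t.1) = ∅ := h𝓢 t.1 t.2
    have hq₁U := hVU hq₁V
    obtain ⟨q', hq'R, hq'V, hq'⟩ := not_subset_closed hdim h hp₁ hp₂ hq₁R hq₁U.2.1 hq₁U.2.2 hVo
      hq₁V hint
    exact hq' (hVC ⟨hq'R, hq'V⟩)
  | inl p =>
    obtain ⟨⟨⟨s, hs⟩, ⟨s', hs'⟩⟩, ⟨b, b'⟩⟩ := p
    have hVC' : Ret Φ S ∩ V ⊆ closure (Cl Φ Ω₁ Ω₂ ψ₁ ψ₂ (GG s s') s.ζ s'.ζ (sg b) (sg b')) := hVC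
    set 𝒞 := Cl Φ Ω₁ Ω₂ ψ₁ ψ₂ (GG s s') s.ζ s'.ζ (sg b) (sg b') with h𝒞
    have hGo := isOpen_GG h hp₁ s s'
    set 𝒪 : Set ((E × E) × (E × E)) := V ∩ π ⁻¹' GG s s' with h𝒪
    have h𝒪o : IsOpen 𝒪 := hVo.inter (hGo.preimage hπ)
    obtain ⟨q₂, hq₂V, hq₂C⟩ := mem_closure_iff.1 (hVC' ⟨hq₁R, hq₁V⟩) V hVo hq₁V
    have hq₂ : q₂ ∈ 𝒪 ∩ 𝒞 := by
      refine ⟨⟨hq₂V, ?_⟩, hq₂C⟩
      obtain ⟨x, hx, w, a, a', hq, ⟨hcf, -⟩, -⟩ := hq₂C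
      have h3 : π q₂ = x := by
        rw [hq]
        refine Prod.ext (hp₁.left _ hcf.1) ?_
        show P₂ (G1 Φ ψ₁ (x.1, w) 1) = x.2
        rw [hcf.2.2.1]
        exact hp₂.left _ hcf.2.1
      show π q₂ ∈ GG s s'
      rw [h3]; exact hx
    have hbase : ∀ q ∈ 𝒪, q.1.1 ∈ W₁ ∧ q.2.1 ∈ W₂ ∧ (P₁ q.1.1, P₂ q.2.1) ∈ GG s s' :=
      fun q hq => ⟨(hVU hq.1).2.1, (hVU hq.1).2.2, hq.2⟩
    set 𝒟 : Set ((N × N) × N) := {c | c.1 ∈ GG s s' ∧ ∃ a a' : ℝ,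
      CR Φ Ω₁ Ω₂ ψ₁ ψ₂ s.ζ c.1 c.2 a ∧ 0 < sg b * a ∧ CR Φ Ω₁ Ω₂ ψ₁ ψ₂ s'.ζ c.1 c.2 a' ∧
      0 < sg b' * a'} with h𝒟
    have h𝒞𝒟 : 𝒞 = (fun c : (N × N) × N => rp Φ ψ₁ c.1 c.2) '' 𝒟 := by
      ext q
      constructor
      · rintro ⟨x, hx, w, a, a', e1, e2, e3, e4, e5⟩
        exact ⟨(x, w), ⟨hx, a, a', e2, e3, e4, e5⟩, e1.symm⟩
      · rintro ⟨⟨x, w⟩, ⟨hx, a, a', e2, e3, e4, e5⟩, e1⟩
        exact ⟨x, hx, w, a, a', e1.symm, e2, e3, e4, e5⟩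
    have hdense : 𝒪 ∩ Ret Φ S ⊆ closure ((fun c : (N × N) × N => rp Φ ψ₁ c.1 c.2) '' 𝒟) := by
      rw [← h𝒞𝒟]
      exact fun q hq => hVC' ⟨hq.2, hq.1.1⟩
    have hex : ∃ c ∈ 𝒟, rp Φ ψ₁ c.1 c.2 ∈ 𝒪 := by
      have h3 := hq₂.2
      rw [h𝒞𝒟] at h3
      obtain ⟨c, hc, hcq⟩ := h3
      exact ⟨c, hc, by
        have : rp Φ ψ₁ c.1 c.2 = q₂ := hcq
        rw [this]; exact hq₂.1⟩
    refine ⟨GG s s', s.ζ, s'.ζ, sg b, sg b', 𝒪, 𝒟, ?_, ?_, fun x hx => hx.2.2.2,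
      fun q hq => hU₀ (hVU hq.1).1, hex⟩
    · exact
        { patch₁ := hp₁
          patch₂ := hp₂
          isOpen := hGo
          germ := ⟨(s.smooth_ζ h hp₁).mono fun x hx => hx.1.1, fun x hx => s.mem_S h hp₁ hx.1.1,
            fun x hx => hx.2.1.2, fun x hx => hx.2.1.1⟩
          open' := h𝒪o
          base := hbase
          cls := by
            rintro c ⟨hx, a, a', e2, e3, e4, e5⟩
            exact ⟨hx, a, e2, e3⟩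
          dense := hdense }
    · exact
        { patch₁ := hp₁
          patch₂ := hp₂
          isOpen := hGo
          germ := ⟨(s'.smooth_ζ h hp₁).mono fun x hx => hx.1.2, fun x hx => s'.mem_S h hp₁ hx.1.2,
            fun x hx => hx.2.2.1.2, fun x hx => hx.2.2.1.1⟩
          open' := h𝒪o
          base := hbase
          cls := by
            rintro c ⟨hx, a, a', e2, e3, e4, e5⟩
            exact ⟨hx, a', e4, e5⟩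
          dense := hdense }

/-- The relation of returns is closed. -/
theorem isClosed_Ret (h : GFlow F S A K K₂ Φ) : IsClosed (Ret Φ S) := by
  have hUT : IsClosed (UT S) :=
    (isClosed_TSet h.compact h.sub).inter (isClosed_eq continuous_snd.norm continuous_const)
  refine isClosed_of_closure_subset fun p hp => ⟨?_, ?_, ?_⟩
  · exact (hUT.preimage continuous_fst).closure_subset_iff.2 (fun q hq => hq.1) hp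
  · exact (hUT.preimage continuous_snd).closure_subset_iff.2 (fun q hq => hq.2.1) hp
  · intro O O' hO hO' hpO hpO' T
    obtain ⟨q, ⟨hqO, hqO'⟩, -, -, hq⟩ := mem_closure_iff.1 hp (O ×ˢ O') (hO.prod hO')
      ⟨hpO, hpO'⟩
    exact hq O O' hO hO' hqO hqO' T

/-- **Density of classes.** Near every return there is an open set of returns in which the exact
nondegenerate returns of two germs `ζ₁`, `ζ₂`, with constant signs, are dense, and the joint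
derivative of the two germs is injective. -/
theorem exists_CD (hdim : Module.finrank ℝ E = Module.finrank ℝ F + Module.finrank ℝ N)
    (hN : 1 < Module.finrank ℝ N) (h : GFlow F S A K K₂ Φ) (hsec : Secure S)
    {q₀ : (E × E) × (E × E)} (hq₀ : q₀ ∈ Ret Φ S) {𝒪₀ : Set ((E × E) × (E × E))}
    (h𝒪₀ : 𝒪₀ ∈ 𝓝 q₀) :
    ∃ (Ω₁ Ω₂ : Set N) (ψ₁ ψ₂ : N → E) (P₁ P₂ : E →L[ℝ] N) (W₁ W₂ : Set E) (O : Set (N × N))
      (ζ₁ ζ₂ : N × N → E) (ε₁ ε₂ : ℝ) (𝒪 : Set ((E × E) × (E × E))) (𝒞 : Set ((N × N) × N)),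
      CD Φ S Ω₁ Ω₂ ψ₁ ψ₂ P₁ P₂ W₁ W₂ O ζ₁ ε₁ 𝒪 𝒞 ∧
      CD Φ S Ω₁ Ω₂ ψ₁ ψ₂ P₁ P₂ W₁ W₂ O ζ₂ ε₂ 𝒪 𝒞 ∧
      (∀ x ∈ O, ∀ b : N × N, fderiv ℝ ζ₁ x b = 0 → fderiv ℝ ζ₂ x b = 0 → b = 0) ∧
      𝒪 ⊆ 𝒪₀ ∧ (∃ c ∈ 𝒞, rp Φ ψ₁ c.1 c.2 ∈ 𝒪) := by
  obtain ⟨U₁, hU₁, f₁, hf₁⟩ := h.sub q₀.1.1 (fst_mem_TSet hq₀.1.1)
  obtain ⟨Ω₁, ψ₁, P₁, W₁, hp₁, hW₁⟩ := exists_patch (N := N) hdim hf₁ hU₁
  obtain ⟨U₂, hU₂, f₂, hf₂⟩ := h.sub q₀.2.1 (fst_mem_TSet hq₀.2.1.1)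
  obtain ⟨Ω₂, ψ₂, P₂, W₂, hp₂, hW₂⟩ := exists_patch (N := N) hdim hf₂ hU₂
  exact ⟨Ω₁, Ω₂, ψ₁, ψ₂, P₁, P₂, W₁, W₂, exists_CD_patch hdim hN h hsec hp₁ hp₂ hq₀ hW₁ hW₂ h𝒪₀
    (isClosed_Ret h)⟩

end Pool.Agent.H91.SF
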