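import Pool.Agent.H91.SF.Defs

/-!
# Two crossing points of two families of connecting geodesics: the joint derivative is injective
(statements, piece S2.1b)
-/

set_option autoImplicit false

open scoped InnerProductSpace Topology ContDiff
open Set Filter

namespace Pool.Agent.H91.SF

open Pool.Agent.H91.GE hiding G1 G11 Nondeg Br exists_br cF smooth_cF Cfg mem_TSet_of_map
open Pool.Agent.H59.LV Pool.Agent.H59.ND Pool.Agent.H77.ND Pool.Agent.H59.Zar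

variable {E F N : Type*} [NormedAddCommGroup E] [InnerProductSpace ℝ E] [FiniteDimensional ℝ E]
  [NormedAddCommGroup F] [InnerProductSpace ℝ F] [FiniteDimensional ℝ F]
  [NormedAddCommGroup N] [NormedSpace ℝ N] [FiniteDimensional ℝ N]
  {S : Set E} {A : E × E → E} {K K₂ : NNReal} {Φ : ℝ → E × E → E × E}
  {Ω₁ Ω₂ : Set N} {ψ₁ ψ₂ : N → E} {P₁ P₂ : E →L[ℝ] N} {W₁ W₂ : Set E}

/-- A geodesic through two constant points: both end points move along the geodesic. -/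
theorem ends_const (h : GFlow F S A K K₂ Φ) (hsec : Secure S) (hp₁ : Patch S Ω₁ ψ₁ P₁ W₁)
    (hc₂ : Patch S Ω₂ ψ₂ P₂ W₂) {O : Set (N × N)} (hO : IsOpen O) {κ : N × N → N}
    {θ θ' : N × N → ℝ} {ζ ζ' : N × N → E}
    (hκ : ContDiffOn ℝ ∞ κ O) (hθ : ContDiffOn ℝ ∞ θ O) (hθ' : ContDiffOn ℝ ∞ θ' O)
    (hm : ∀ x ∈ O, x.1 ∈ Ω₁ ∧ x.2 ∈ Ω₂) (hend : ∀ x ∈ O, cF Φ ψ₁ κ x 1 = ψ₂ x.2)
    (hcr : ∀ x ∈ O, cF Φ ψ₁ κ x (θ x) = ζ x) (hcr' : ∀ x ∈ O, cF Φ ψ₁ κ x (θ' x) = ζ' x)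
    (hne : ∀ x ∈ O, κ x ≠ 0) (hθθ : ∀ x ∈ O, θ x ≠ θ' x) {c : ℝ → N × N} {k : N × N}
    (hc0 : c 0 ∈ O) (hc : HasDerivAt c k 0)
    (hcz : ∀ᶠ τ in 𝓝 (0 : ℝ), ζ (c τ) = ζ (c 0))
    (hcz' : ∀ᶠ τ in 𝓝 (0 : ℝ), ζ' (c τ) = ζ' (c 0)) :
    (∃ a : ℝ, fderiv ℝ ψ₁ (c 0).1 k.1 = a • deriv (cF Φ ψ₁ κ (c 0)) 0) ∧
      ∃ a : ℝ, fderiv ℝ ψ₂ (c 0).2 k.2 = a • deriv (cF Φ ψ₁ κ (c 0)) 1 := by
  have hO' : ∀ᶠ τ in 𝓝 (0 : ℝ), c τ ∈ O := hc.continuousAt.preimage_mem_nhds (hO.mem_nhds hc0)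
  have hgeo : ∀ x ∈ O, IsGeo S (cF Φ ψ₁ κ x) := fun x hx => (isGeo_G1 h hp₁ (hm x hx).1 _).1
  have hθd : DifferentiableAt ℝ (fun τ => θ (c τ)) 0 := by
    have h1 : DifferentiableAt ℝ θ (c 0) :=
      ((hθ _ hc0).contDiffAt (hO.mem_nhds hc0)).differentiableAt (by simp)
    exact DifferentiableAt.comp (g := θ) (f := c) (0 : ℝ) h1 hc.differentiableAt
  have hθ'd : DifferentiableAt ℝ (fun τ => θ' (c τ)) 0 := by
    have h1 : DifferentiableAt ℝ θ' (c 0) :=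
      ((hθ' _ hc0).contDiffAt (hO.mem_nhds hc0)).differentiableAt (by simp)
    exact DifferentiableAt.comp (g := θ') (f := c) (0 : ℝ) h1 hc.differentiableAt
  have hu : DifferentiableAt ℝ (fun τ => deriv (cF Φ ψ₁ κ (c τ)) (θ (c τ))) 0 := by
    have hdd : DifferentiableAt ℝ (fun y : (N × N) × ℝ => deriv (cF Φ ψ₁ κ y.1) y.2)
        (c 0, θ (c 0)) := by
      have h1 := (smooth_cF h hp₁ hO hκ fun x hx => (hm x hx).1).2
      exact ((h1 _ ⟨hc0, mem_univ _⟩).contDiffAt ((hO.prod isOpen_univ).mem_nhds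
        ⟨hc0, mem_univ _⟩)).differentiableAt (by simp)
    have h1 : DifferentiableAt ℝ (fun τ => ((c τ, θ (c τ)) : (N × N) × ℝ)) 0 :=
      hc.differentiableAt.prodMk hθd
    exact DifferentiableAt.comp (g := fun y : (N × N) × ℝ => deriv (cF Φ ψ₁ κ y.1) y.2)
      (f := fun τ => ((c τ, θ (c τ)) : (N × N) × ℝ)) (0 : ℝ) hdd h1
  have hZS : ζ (c 0) ∈ S := by
    rw [← hcr _ hc0]; exact mem_G1 h hp₁ (hm _ hc0).1 _ _
  have hZS' : ζ' (c 0) ∈ S := by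
    rw [← hcr' _ hc0]; exact mem_G1 h hp₁ (hm _ hc0).1 _ _
  -- the geodesic seen from `ζ`
  have hrev : ∀ x ∈ O, ∀ t, Geo Φ (ζ x) (deriv (cF Φ ψ₁ κ x) (θ x)) t
      = cF Φ ψ₁ κ x (θ x + t) := by
    intro x hx t
    have h1 := h.Geo_add (hgeo x hx) (θ x) 1 t
    rw [one_smul, one_mul, hcr x hx] at h1
    exact h1
  have huT : ∀ᶠ τ in 𝓝 (0 : ℝ), (ζ (c 0), deriv (cF Φ ψ₁ κ (c τ)) (θ (c τ))) ∈ TSet S := by
    filter_upwards [hO', hcz] with τ h1 h2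
    have h3 := (hgeo _ h1).mem_TSet (θ (c τ))
    rw [hcr _ h1, h2] at h3
    exact h3
  have hne0 : ∀ t, deriv (cF Φ ψ₁ κ (c 0)) t ≠ 0 := by
    refine (hgeo _ hc0).deriv_ne S ?_
    obtain ⟨-, -, g3⟩ := isGeo_G1 h hp₁ (hm _ hc0).1 (κ (c 0))
    show deriv (G1 Φ ψ₁ ((c 0).1, κ (c 0))) 0 ≠ 0
    rw [g3]
    exact fderiv_ne_zero hp₁ (hm _ hc0).1 (hne _ hc0)
  obtain ⟨l, hl, hl0, hlu⟩ := stay h hsec hZS hZS'
    (u := fun τ => deriv (cF Φ ψ₁ κ (c τ)) (θ (c τ))) hu huT (hne0 _)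
    (θ := fun τ => θ' (c τ) - θ (c τ)) (hθ'd.continuousAt.sub hθd.continuousAt)
    (sub_ne_zero.2 (hθθ _ hc0).symm) (by
      filter_upwards [hO', hcz, hcz'] with τ h1 h2 h3
      rw [← h2, hrev _ h1, ← h3, ← hcr' _ h1]
      congr 1; ring)
  have hT0 := huT.self_of_nhds
  obtain ⟨g1, -, -⟩ := h.isGeo_Geo hT0
  -- the point at the time `t₀`
  have key : ∀ (t₀ : ℝ) (e : ℝ → E) (e' : E), HasDerivAt e e' 0 →
      (∀ᶠ τ in 𝓝 (0 : ℝ), cF Φ ψ₁ κ (c τ) t₀ = e τ) →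
      ∃ a : ℝ, e' = a • deriv (cF Φ ψ₁ κ (c 0)) t₀ := by
    intro t₀ e e' he hee
    have hmd : HasDerivAt (fun τ => l τ * (t₀ - θ (c τ)))
        (deriv (fun τ => l τ * (t₀ - θ (c τ))) 0) 0 :=
      (hl.mul ((differentiableAt_const t₀).sub hθd)).hasDerivAt
    have hm0 : l 0 * (t₀ - θ (c 0)) = t₀ - θ (c 0) := by rw [hl0, one_mul]
    have h1 : HasDerivAt (fun τ => Geo Φ (ζ (c 0)) (deriv (cF Φ ψ₁ κ (c 0)) (θ (c 0)))
        (l τ * (t₀ - θ (c τ))))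
        (deriv (fun τ => l τ * (t₀ - θ (c τ))) 0 •
          deriv (Geo Φ (ζ (c 0)) (deriv (cF Φ ψ₁ κ (c 0)) (θ (c 0)))) (t₀ - θ (c 0))) 0 :=
      HasDerivAt.scomp (g₁ := Geo Φ (ζ (c 0)) (deriv (cF Φ ψ₁ κ (c 0)) (θ (c 0))))
        (h := fun τ => l τ * (t₀ - θ (c τ))) (0 : ℝ)
        (by
          show HasDerivAt _ _ (l 0 * (t₀ - θ (c 0)))
          rw [hm0]; exact g1.hasDerivAt _) hmd
    have h2 : e =ᶠ[𝓝 0] fun τ => Geo Φ (ζ (c 0)) (deriv (cF Φ ψ₁ κ (c 0)) (θ (c 0)))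
        (l τ * (t₀ - θ (c τ))) := by
      filter_upwards [hlu, hee, hO', hcz] with τ h3 h4 h5 h6
      rw [← h4, ← h.Geo_smul hT0, ← h3]
      have h7 := hrev _ h5 (t₀ - θ (c τ))
      rw [h6] at h7
      rw [h7]
      congr 1; ring
    have h3 : deriv (Geo Φ (ζ (c 0)) (deriv (cF Φ ψ₁ κ (c 0)) (θ (c 0)))) (t₀ - θ (c 0))
        = deriv (cF Φ ψ₁ κ (c 0)) t₀ := by
      have h4 : Geo Φ (ζ (c 0)) (deriv (cF Φ ψ₁ κ (c 0)) (θ (c 0)))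
          = fun t => cF Φ ψ₁ κ (c 0) (θ (c 0) + t) := funext fun t => hrev _ hc0 t
      rw [h4, deriv_comp_const_add]
      congr 1; ring
    refine ⟨deriv (fun τ => l τ * (t₀ - θ (c τ))) 0, ?_⟩
    rw [← h3]
    exact he.unique (h1.congr_of_eventuallyEq h2)
  constructor
  · refine key 0 (fun τ => ψ₁ (c τ).1) _ ?_ ?_
    · exact (hp₁.hasFDerivAt (hm _ hc0).1).comp_hasDerivAt (0 : ℝ) hc.fst
    · filter_upwards [hO'] with τ h1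
      exact (isGeo_G1 h hp₁ (hm _ h1).1 (κ (c τ))).2.1
  · refine key 1 (fun τ => ψ₂ (c τ).2) _ ?_ ?_
    · exact (hc₂.hasFDerivAt (hm _ hc0).2).comp_hasDerivAt (0 : ℝ) hc.snd
    · filter_upwards [hO'] with τ h1
      exact hend _ h1

/-- Two families of connecting geodesics which meet at `ζ` and at `ζ'`. On a nonempty open set
the pair `(ζ, ζ')` cannot have a nowhere injective derivative: along a regular curve on which both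
points are constant both geodesics through them would be constant up to the parametrization (finitely
many geodesics join two points), so both end points would move in two independent directions. -/
theorem exists_joint (h : GFlow F S A K K₂ Φ) (hsec : Secure S) (hp₁ : Patch S Ω₁ ψ₁ P₁ W₁)
    (hc₂ : Patch S Ω₂ ψ₂ P₂ W₂) {O : Set (N × N)} {κ₁ κ₂ : N × N → N}
    {θ₁ θ₂ θ₁' θ₂' : N × N → ℝ} {ζ ζ' : N × N → E}
    (hpp : PP Φ Ω₁ Ω₂ ψ₁ ψ₂ O κ₁ κ₂ θ₁ θ₂ ζ) (hpp' : PP Φ Ω₁ Ω₂ ψ₁ ψ₂ O κ₁ κ₂ θ₁' θ₂' ζ')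
    (hne₁ : ∀ x ∈ O, θ₁ x ≠ θ₁' x) (hne₂ : ∀ x ∈ O, θ₂ x ≠ θ₂' x) {V : Set (N × N)}
    (hV : IsOpen V) (hne : V.Nonempty) (hVO : V ⊆ O) :
    ∃ x ∈ V, ∀ b : N × N, fderiv ℝ ζ x b = 0 → fderiv ℝ ζ' x b = 0 → b = 0 := by
  by_contra hcon
  push Not at hcon
  have hζ := hpp.smooth_ζ h hp₁
  have hζ' := hpp'.smooth_ζ h hp₁
  have hfd : ∀ x ∈ O, HasFDerivAt (fun x => (ζ x, ζ' x))
      ((fderiv ℝ ζ x).prod (fderiv ℝ ζ' x)) x := fun x hx =>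
    (hasFDerivAt_of_open hpp.isOpen hζ hx).prodMk (hasFDerivAt_of_open hpp.isOpen hζ' hx)
  obtain ⟨q₁, hq₁, c, k, hk0, hc0, hc, hev⟩ := exists_fiber_curve hV hne
    (f := fun x => (ζ x, ζ' x)) ((hζ.prodMk hζ').mono hVO) (by
      intro x hx
      obtain ⟨b, hb1, hb2, hb3⟩ := hcon x hx
      refine ⟨b, hb3, ?_⟩
      rw [(hfd x (hVO hx)).fderiv, ContinuousLinearMap.prod_apply, hb1, hb2]
      rfl)
  have hcz : ∀ᶠ τ in 𝓝 (0 : ℝ), ζ (c τ) = ζ (c 0) := by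
    filter_upwards [hev] with τ hτ
    rw [hc0]; exact congrArg Prod.fst hτ.2.2
  have hcz' : ∀ᶠ τ in 𝓝 (0 : ℝ), ζ' (c τ) = ζ' (c 0) := by
    filter_upwards [hev] with τ hτ
    rw [hc0]; exact congrArg Prod.snd hτ.2.2
  have hmO : c 0 ∈ O := by rw [hc0]; exact hVO hq₁
  obtain ⟨⟨a, ha⟩, a', ha'⟩ := ends_const h hsec hp₁ hc₂ hpp.isOpen hpp.s1 hpp.t1 hpp'.t1 hpp.mem
    hpp.end1 hpp.cr1 hpp'.cr1 hpp.ne1 hne₁ hmO hc hcz hcz'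
  obtain ⟨⟨b, hb⟩, b', hb'⟩ := ends_const h hsec hp₁ hc₂ hpp.isOpen hpp.s2 hpp.t2 hpp'.t2 hpp.mem
    hpp.end2 hpp.cr2 hpp'.cr2 hpp.ne2 hne₂ hmO hc hcz hcz'
  have h1 : fderiv ℝ ψ₁ (c 0).1 k.1 = 0 := by
    have h3 := hpp.ind0 _ hmO a b (by rw [← ha, hb])
    rw [ha, h3.1, zero_smul]
  have h2 : fderiv ℝ ψ₂ (c 0).2 k.2 = 0 := by
    have h3 := hpp.ind1 _ hmO a' b' (by rw [← ha', hb'])
    rw [ha', h3.1, zero_smul]
  apply hk0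
  have h3 : k.1 = 0 := by
    refine inj_fderiv hp₁ (hpp.mem _ hmO).1 ?_
    rw [h1, map_zero]
  have h4 : k.2 = 0 := by
    refine inj_fderiv hc₂ (hpp.mem _ hmO).2 ?_
    rw [h2, map_zero]
  exact Prod.ext h3 h4

end Pool.Agent.H91.SF
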