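import Pool.Agent.H91.SF.Defs
import Pool.Agent.H59.Zar.UT

/-!
# A smooth chart of `S` defined in the ambient space whose derivative kills the normal vectors
-/

set_option autoImplicit false

open scoped InnerProductSpace Topology ContDiff
open Set Filter

namespace Pool.Agent.H91.SF

open Pool.Agent.H91.GE hiding G1 G11 Nondeg Br exists_br cF smooth_cF Cfg mem_TSet_of_map
open Pool.Agent.H59.LV Pool.Agent.H59.ND Pool.Agent.H77.ND Pool.Agent.H59.Zar

variable {E F N : Type*} [NormedAddCommGroup E] [InnerProductSpace ℝ E] [FiniteDimensional ℝ E]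
  [NormedAddCommGroup F] [InnerProductSpace ℝ F] [FiniteDimensional ℝ F]
  [NormedAddCommGroup N] [NormedSpace ℝ N] [FiniteDimensional ℝ N]
  {S : Set E} {A : E × E → E} {K K₂ : NNReal} {Φ : ℝ → E × E → E × E}
  {Ω₁ Ω₂ : Set N} {ψ₁ ψ₂ : N → E} {P₁ P₂ : E →L[ℝ] N} {W₁ W₂ : Set E}  {Ω : Set N} {ψ : N → E} {P : E →L[ℝ] N} {W : Set E}

theorem exists_tau (hsub : IsSub F S) (hp : Patch S Ω ψ P W) {x : E} (hx : x ∈ S) (hW : x ∈ W) :
    ∃ (D : Set E) (τ : E → N), IsOpen D ∧ x ∈ D ∧ D ⊆ W ∧ ContDiffOn ℝ ∞ τ D ∧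
      (∀ y ∈ D, τ y ∈ Ω) ∧
      ∀ y ∈ D, y ∈ S → τ y = P y ∧ (∀ n, (∀ e ∈ ZT S y, ⟪n, e⟫_ℝ = 0) → fderiv ℝ τ y n = 0) ∧
        ∀ e ∈ ZT S y, fderiv ℝ τ y e = P e := by
  let Fn : E × N → (N →L[ℝ] ℝ) := fun z => (innerSL ℝ (z.1 - ψ z.2)) ∘L (fderiv ℝ ψ z.2)
  set D₀ : Set (E × N) := {z | z.2 ∈ Ω} with hD₀
  have hD₀o : IsOpen D₀ := hp.isOpen.preimage continuous_snd
  have hFn : ContDiffOn ℝ ∞ Fn D₀ := by
    have h1 : ContDiffOn ℝ ∞ (fun z : E × N => z.1 - ψ z.2) D₀ :=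
      contDiff_fst.contDiffOn.sub (hp.smooth.comp contDiff_snd.contDiffOn fun z hz => hz)
    have h2 : ContDiffOn ℝ ∞ (fun z : E × N => fderiv ℝ ψ z.2) D₀ :=
      hp.fderiv_smooth.comp contDiff_snd.contDiffOn fun z hz => hz
    exact ((innerSL ℝ (E := E)).contDiff.comp_contDiffOn h1).clm_comp h2
  obtain ⟨hPx, hψPx⟩ := hp.right x hx hW
  have hmem : (x, P x) ∈ D₀ := hPx
  have hF0 : Fn (x, P x) = 0 := by
    ext b
    show ⟪x - ψ (P x), fderiv ℝ ψ (P x) b⟫_ℝ = 0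
    rw [hψPx, sub_self, inner_zero_left]
  have hder : ∀ b c : N, fderiv ℝ Fn (x, P x) (0, b) c
      = -⟪fderiv ℝ ψ (P x) b, fderiv ℝ ψ (P x) c⟫_ℝ := by
    intro b c
    have h1 : HasFDerivAt Fn (fderiv ℝ Fn (x, P x)) (x, P x) := hasFDerivAt_of_open hD₀o hFn hmem
    have h2 : HasDerivAt (fun s : ℝ => ((x, P x + s • b) : E × N)) (0, b) 0 := by
      have h3 : HasDerivAt (fun s : ℝ => P x + s • b) b 0 := by
        simpa using ((hasDerivAt_id (0 : ℝ)).smul_const b).const_add (P x)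
      exact (hasDerivAt_const (0 : ℝ) x).prodMk h3
    have h3 : HasDerivAt (fun s : ℝ => Fn (x, P x + s • b) c) (fderiv ℝ Fn (x, P x) (0, b) c) 0 := by
      have h4 : HasFDerivAt Fn (fderiv ℝ Fn (x, P x)) ((x, P x + (0 : ℝ) • b) : E × N) := by
        rw [zero_smul, add_zero]; exact h1
      have h5 := h4.comp_hasDerivAt (0 : ℝ) h2
      exact (h5.clm_apply (hasDerivAt_const (0 : ℝ) c)).congr_deriv (by simp)
    have h4 : HasDerivAt (fun s : ℝ => P x + s • b) b 0 := by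
      simpa using ((hasDerivAt_id (0 : ℝ)).smul_const b).const_add (P x)
    have h5 : HasFDerivAt ψ (fderiv ℝ ψ (P x)) (P x + (0 : ℝ) • b) := by
      rw [zero_smul, add_zero]; exact hp.hasFDerivAt hPx
    have h6 : HasDerivAt (fun s : ℝ => x - ψ (P x + s • b)) (-(fderiv ℝ ψ (P x) b)) 0 :=
      (h5.comp_hasDerivAt (0 : ℝ) h4).const_sub x
    have h7 : HasFDerivAt (fderiv ℝ ψ) (fderiv ℝ (fderiv ℝ ψ) (P x)) (P x + (0 : ℝ) • b) := by
      rw [zero_smul, add_zero]; exact hp.hasFDerivAt_fderiv hPx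
    have h8 : HasDerivAt (fun s : ℝ => fderiv ℝ ψ (P x + s • b) c)
        (fderiv ℝ (fderiv ℝ ψ) (P x) b c) 0 :=
      ((h7.comp_hasDerivAt (0 : ℝ) h4).clm_apply (hasDerivAt_const (0 : ℝ) c)).congr_deriv
        (by simp)
    have h9 := h6.inner ℝ h8
    have h10 := h3.unique h9
    rw [h10, zero_smul, add_zero, hψPx, sub_self, inner_zero_left, zero_add, inner_neg_left]
  have hinj : Function.Injective fun b : N => fderiv ℝ Fn (x, P x) (0, b) := by
    intro b b' hbb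
    have h1 : fderiv ℝ Fn (x, P x) (0, b - b') = 0 := by
      have h2 : ((0 : E), b - b') = (0, b) - (0, b') := by simp
      rw [h2, map_sub, sub_eq_zero]; exact hbb
    have h2 := hder (b - b') (b - b')
    rw [h1] at h2
    have h3 : fderiv ℝ ψ (P x) (b - b') = 0 := by
      have h4 : ⟪fderiv ℝ ψ (P x) (b - b'), fderiv ℝ ψ (P x) (b - b')⟫_ℝ = 0 := by
        have : (0 : N →L[ℝ] ℝ) (b - b') = 0 := rfl
        rw [this] at h2
        linarith
      exact inner_self_eq_zero.1 h4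
    exact sub_eq_zero.1 (Patch.inj hp hPx (h3.trans (map_zero _).symm))
  have hbij : Function.Bijective fun b : N => fderiv ℝ Fn (x, P x) (0, b) := by
    let L : N →ₗ[ℝ] (N →L[ℝ] ℝ) :=
      ((fderiv ℝ Fn (x, P x)) ∘L (ContinuousLinearMap.inr ℝ E N)).toLinearMap
    have hL : Function.Injective L := hinj
    have hfr : Module.finrank ℝ N = Module.finrank ℝ (N →L[ℝ] ℝ) := by
      rw [← LinearMap.toContinuousLinearMap.finrank_eq, Module.finrank_linearMap_self]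
    exact ⟨hinj, (LinearMap.injective_iff_surjective_of_finrank_eq_finrank hfr).1 hL⟩
  obtain ⟨O, V, β, hO, hxO, hV, hPV, hOV, hβ, hβ0, hβ1⟩ := exists_implicit hD₀o hFn hmem hbij
  rw [hF0] at hβ1
  set D : Set E := O ∩ (W ∩ P ⁻¹' V) with hD
  have hDo : IsOpen D := hO.inter (hp.V_open.inter (hV.preimage P.continuous))
  refine ⟨D, β, hDo, ⟨hxO, hW, hPV⟩, fun y hy => hy.2.1, hβ.mono inter_subset_left,
    fun y hy => (hOV (show (y, β y) ∈ O ×ˢ V from ⟨hy.1, (hβ1 y hy.1).1⟩) : (y, β y) ∈ D₀),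
    fun y hy hyS => ?_⟩
  obtain ⟨hPy, hψPy⟩ := hp.right y hyS hy.2.1
  have hall : ∀ z ∈ D, z ∈ S → β z = P z := by
    intro z hz hzS
    refine ((hβ1 z hz.1).2.2 (P z) hz.2.2 ?_).symm
    ext b
    show ⟪z - ψ (P z), fderiv ℝ ψ (P z) b⟫_ℝ = 0
    rw [(hp.right z hzS hz.2.1).2, sub_self, inner_zero_left]
  have hβy := hall y hy hyS
  have hβd : HasFDerivAt β (fderiv ℝ β y) y := hasFDerivAt_of_open hO hβ hy.1
  refine ⟨hβy, fun n hn => ?_, fun e he => ?_⟩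
  · -- normal vectors
    have key : ∀ b : N, ⟪fderiv ℝ ψ (P y) (fderiv ℝ β y n), fderiv ℝ ψ (P y) b⟫_ℝ = 0 := by
      intro b
      have h0 : ∀ᶠ z in 𝓝 y, ⟪z - ψ (β z), fderiv ℝ ψ (β z) b⟫_ℝ = 0 := by
        filter_upwards [hO.mem_nhds hy.1] with z hz
        exact congrArg (fun L : N →L[ℝ] ℝ => L b) (hβ1 z hz).2.1
      have hψ1 : HasFDerivAt ψ (fderiv ℝ ψ (P y)) (β y) := by rw [hβy]; exact hp.hasFDerivAt hPy
      have hψ2 : HasFDerivAt (fderiv ℝ ψ) (fderiv ℝ (fderiv ℝ ψ) (P y)) (β y) := by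
        rw [hβy]; exact hp.hasFDerivAt_fderiv hPy
      have h1 : HasFDerivAt (fun z => z - ψ (β z))
          (ContinuousLinearMap.id ℝ E - (fderiv ℝ ψ (P y)) ∘L (fderiv ℝ β y)) y :=
        (hasFDerivAt_id y).sub (hψ1.comp y hβd)
      have h2 : HasFDerivAt (fun z => fderiv ℝ ψ (β z) b)
          ((((fderiv ℝ (fderiv ℝ ψ) (P y)) ∘L (fderiv ℝ β y)).flip b)) y := by
        have h3 := (hψ2.comp y hβd).clm_apply (hasFDerivAt_const b y)
        refine h3.congr_fderiv ?_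
        ext v
        simp
      have h3 := h1.inner ℝ h2
      have h4 := h3.unique ((hasFDerivAt_const (0 : ℝ) y).congr_of_eventuallyEq h0)
      have h5 := congrArg (fun L : E →L[ℝ] ℝ => L n) h4
      have h6 : ⟪y - ψ (β y), (((fderiv ℝ (fderiv ℝ ψ) (P y)) ∘L (fderiv ℝ β y)).flip b) n⟫_ℝ
          + ⟪n - fderiv ℝ ψ (P y) (fderiv ℝ β y n), fderiv ℝ ψ (β y) b⟫_ℝ = 0 := h5
      rw [hβy, hψPy, sub_self, inner_zero_left, zero_add, inner_sub_left] at h6
      have h7 : ⟪n, fderiv ℝ ψ (P y) b⟫_ℝ = 0 := by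
        refine hn _ ((mem_TS hsub hyS).2 ?_)
        have := hp.mem_TSet hsub hPy b
        rw [hψPy] at this
        exact this
      linarith
    have h1 := inner_self_eq_zero.1 (key (fderiv ℝ β y n))
    exact Patch.inj hp hPy (h1.trans (map_zero _).symm)
  · -- tangent vectors
    have he' := (mem_TS hsub hyS).1 he
    obtain ⟨c, hc, hcS, hc0, hcd⟩ := he'
    have hc0' : c 0 = y := hc0
    have hcd' : deriv c 0 = e := hcd
    have h3 : HasDerivAt c e 0 := by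
      rw [← hcd']; exact (hc.differentiable (by simp) 0).hasDerivAt
    have h4 : HasDerivAt (fun s => P (c s)) (P e) 0 := P.hasFDerivAt.comp_hasDerivAt (0 : ℝ) h3
    have h5 : HasDerivAt (fun s => β (c s)) (fderiv ℝ β y e) 0 := by
      have h6 : HasFDerivAt β (fderiv ℝ β y) (c 0) := by rw [hc0']; exact hβd
      exact h6.comp_hasDerivAt (0 : ℝ) h3
    have h7 : (fun s => β (c s)) =ᶠ[𝓝 0] fun s => P (c s) := by
      have h8 : ∀ᶠ s in 𝓝 (0 : ℝ), c s ∈ D :=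
        hc.continuous.continuousAt.preimage_mem_nhds (by rw [hc0']; exact hDo.mem_nhds hy)
      filter_upwards [h8] with s hs
      exact hall (c s) hs (hcS s)
    exact h5.unique (h4.congr_of_eventuallyEq h7)

end Pool.Agent.H91.SF
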