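import Pool.Agent.H91.SF.Dens
import Pool.Agent.H96.SF.NDeg
import Pool.Agent.H59.Zar.Om
import Pool.Agent.H77.SN.Defs

/-!
# Section 2, from class data to joint class returns (statements)
-/

set_option autoImplicit false

open scoped InnerProductSpace Topology ContDiff
open Set Filter

namespace Pool.Agent.H91.SF

open Pool.Agent.H91.GE hiding G1 G11 Nondeg Br exists_br cF smooth_cF Cfg mem_TSet_of_map
open Pool.Agent.H59.LV Pool.Agent.H59.ND Pool.Agent.H77.ND Pool.Agent.H59.Zar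

variable {E F N : Type*} [NormedAddCommGroup E] [InnerProductSpace ℝ E] [FiniteDimensional ℝ E]
  [NormedAddCommGroup F] [InnerProductSpace ℝ F] [FiniteDimensional ℝ F]
  [NormedAddCommGroup N] [NormedSpace ℝ N] [FiniteDimensional ℝ N]
  {S : Set E} {A : E × E → E} {K K₂ : NNReal} {Φ : ℝ → E × E → E × E}
  {Ω₁ Ω₂ : Set N} {ψ₁ ψ₂ : N → E} {P₁ P₂ : E →L[ℝ] N} {W₁ W₂ : Set E}
/-- Nondegenerate connecting geodesics have nonconjugate end points. -/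
theorem ndeg_of_cfg (h : GFlow F S A K K₂ Φ) (hp₁ : Patch S Ω₁ ψ₁ P₁ W₁) {x : N × N} {w : N}
    (hc : Cfg Φ Ω₁ Ω₂ ψ₁ ψ₂ x w) (hw : w ≠ 0) :
    Pool.Agent.H77.SN.NDeg Φ S (rp Φ ψ₁ x w).1 ‖fderiv ℝ ψ₁ x.1 w‖ := by
  exact Pool.Agent.H96.SF.ndeg_of_cfg' h hp₁ hc hw

/-- **(C3)** in charts: the Jacobi fields along the class geodesic which are tangent to it at the
crossing point form an isotropic space. -/
theorem c3_chart (hdim : Module.finrank ℝ E = Module.finrank ℝ F + Module.finrank ℝ N)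
    (h : GFlow F S A K K₂ Φ) (hp₁ : Patch S Ω₁ ψ₁ P₁ W₁) (hp₂ : Patch S Ω₂ ψ₂ P₂ W₂)
    {O : Set (N × N)} {ζ : N × N → E} (hO : IsOpen O) (hg : Germ S O ζ) {x : N × N} (hx : x ∈ O)
    {w : N} {e : ℝ} (hc : CR Φ Ω₁ Ω₂ ψ₁ ψ₂ ζ x w e) {a b : E × E}
    (ha : a ∈ ZT (UT S) (rp Φ ψ₁ x w).1) (hb : b ∈ ZT (UT S) (rp Φ ψ₁ x w).1) {c d : ℝ}
    (hac : fderiv ℝ ζ x (P₁ a.1, P₂ (fderiv ℝ (Φ ‖fderiv ℝ ψ₁ x.1 w‖) (rp Φ ψ₁ x w).1 a).1)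
      = c • fderiv ℝ ζ x (w, 0))
    (hbd : fderiv ℝ ζ x (P₁ b.1, P₂ (fderiv ℝ (Φ ‖fderiv ℝ ψ₁ x.1 w‖) (rp Φ ψ₁ x w).1 b).1)
      = d • fderiv ℝ ζ x (w, 0)) : om a b = 0 := by
  sorry

end Pool.Agent.H91.SF
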