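import Pool.Agent.H91.SF.Zh
import Pool.Agent.H91.SF.RetA

/-!
# The velocity at the class point as a function on the relation 
-/

set_option autoImplicit false

open scoped InnerProductSpace Topology ContDiff
open Set Filter

namespace Pool.Agent.H91.SF

open Pool.Agent.H91.GE hiding G1 G11 Nondeg Br exists_br cF smooth_cF Cfg mem_TSet_of_map
open Pool.Agent.H59.LV Pool.Agent.H59.ND Pool.Agent.H77.ND Pool.Agent.H59.Zar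

variable {E F N : Type*} [NormedAddCommGroup E] [InnerProductSpace ℝ E] [FiniteDimensional ℝ E]
  [NormedAddCommGroup F] [InnerProductSpace ℝ F] [FiniteDimensional ℝ F]
  [NormedAddCommGroup N] [NormedSpace ℝ N] [FiniteDimensional ℝ N]
  {S : Set E} {A : E × E → E} {K K₂ : NNReal} {Φ : ℝ → E × E → E × E}
  {Ω₁ Ω₂ : Set N} {ψ₁ ψ₂ : N → E} {P₁ P₂ : E →L[ℝ] N} {W₁ W₂ : Set E}  {O : Set (N × N)} {ζ : N × N → E} {D₁ D₂ : Set E} {τ₁ τ₂ : E → N}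

/-- The velocity at the class point. -/
noncomputable def Th (ε : ℝ) (z : E × E → E) (q : (E × E) × (E × E)) : E × E :=
  (z (q.1.1, q.2.1), (ε / (|ε| * ‖fderiv ℝ z (q.1.1, q.2.1) (q.1.2, 0)‖)) •
    fderiv ℝ z (q.1.1, q.2.1) (q.1.2, 0))

theorem zh_rp (h : GFlow F S A K K₂ Φ) (hp₁ : Patch S Ω₁ ψ₁ P₁ W₁)
    (hp₂ : Patch S Ω₂ ψ₂ P₂ W₂) (t₁ : Tau S Ω₁ P₁ W₁ D₁ τ₁) (t₂ : Tau S Ω₂ P₂ W₂ D₂ τ₂)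
    {x : N × N} {w : N} (hc : Cfg Φ Ω₁ Ω₂ ψ₁ ψ₂ x w)
    (hW : ((rp Φ ψ₁ x w).1.1, (rp Φ ψ₁ x w).2.1) ∈ Wd D₁ D₂ τ₁ τ₂ O) :
    (P₁ (rp Φ ψ₁ x w).1.1, P₂ (rp Φ ψ₁ x w).2.1) = x ∧
      zh τ₁ τ₂ ζ ((rp Φ ψ₁ x w).1.1, (rp Φ ψ₁ x w).2.1) = ζ x ∧ x ∈ O ∧
      (rp Φ ψ₁ x w).1.1 ∈ S ∧ (rp Φ ψ₁ x w).2.1 ∈ S := by
  have e1 : (rp Φ ψ₁ x w).1.1 = ψ₁ x.1 := rfl
  have e2 : (rp Φ ψ₁ x w).2.1 = ψ₂ x.2 := hc.2.2.1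
  have s1 : ψ₁ x.1 ∈ S := hp₁.mem _ hc.1
  have s2 : ψ₂ x.2 ∈ S := hp₂.mem _ hc.2.1
  have l1 := hp₁.left _ hc.1
  have l2 := hp₂.left _ hc.2.1
  rw [e1, e2] at hW ⊢
  have h1 : τ₁ (ψ₁ x.1) = x.1 := by rw [t₁.eq _ hW.1.1 s1, l1]
  have h2 : τ₂ (ψ₂ x.2) = x.2 := by rw [t₂.eq _ hW.1.2 s2, l2]
  have h3 : (τ₁ (ψ₁ x.1), τ₂ (ψ₂ x.2)) ∈ O := hW.2
  rw [h1, h2] at h3
  refine ⟨by rw [l1, l2], ?_, h3, s1, s2⟩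
  show ζ (τ₁ (ψ₁ x.1), τ₂ (ψ₂ x.2)) = ζ x
  rw [h1, h2]

/-- At a class return `Th` is the velocity of the geodesic at the class point. -/
theorem Th_exact (h : GFlow F S A K K₂ Φ) (hp₁ : Patch S Ω₁ ψ₁ P₁ W₁)
    (hp₂ : Patch S Ω₂ ψ₂ P₂ W₂) (t₁ : Tau S Ω₁ P₁ W₁ D₁ τ₁) (t₂ : Tau S Ω₂ P₂ W₂ D₂ τ₂)
    (hO : IsOpen O) (hg : Germ S O ζ) {x : N × N} {w : N} {a ε : ℝ}
    (hc : CR Φ Ω₁ Ω₂ ψ₁ ψ₂ ζ x w a) (ha : 0 < ε * a)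
    (hW : ((rp Φ ψ₁ x w).1.1, (rp Φ ψ₁ x w).2.1) ∈ Wd D₁ D₂ τ₁ τ₂ O) :
    ∃ s : ℝ, 0 < s ∧ s < ‖fderiv ℝ ψ₁ x.1 w‖ ∧
      Th ε (zh τ₁ τ₂ ζ) (rp Φ ψ₁ x w) = Φ s (rp Φ ψ₁ x w).1 := by
  obtain ⟨hcfg, hw0, O₂, V, κ, θ, hl, hxO₂, hκ, hθ0, hθ1, he⟩ := hc
  obtain ⟨r1, r2, r3⟩ := rp_eq h hp₁ hcfg.1 hw0
  obtain ⟨z1, z2, z3, z4, z5⟩ := zh_rp (ζ := ζ) h hp₁ hp₂ t₁ t₂ hcfg hW
  set L : ℝ := ‖fderiv ℝ ψ₁ x.1 w‖ with hL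
  set q : (E × E) × (E × E) := rp Φ ψ₁ x w with hq
  have hT : (ψ₁ x.1, fderiv ℝ ψ₁ x.1 w) ∈ TSet S := hp₁.mem_TSet h.sub hcfg.1 _
  have hv : G1 Φ ψ₁ (x.1, w) (θ x) = (Φ (L * θ x) q.1).1 ∧
      deriv (G1 Φ ψ₁ (x.1, w)) (θ x) = L • (Φ (L * θ x) q.1).2 :=
    h.Geo_eq hT r2 (by linarith) (θ x)
  have hu : Φ (L * θ x) q.1 ∈ UT S := flow_mem_UT h r1 _
  set v : E × E := Φ (L * θ x) q.1 with hvdef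
  have hv1 : ‖v.2‖ = 1 := hu.2
  have hq2T : q.1.2 ∈ ZT S q.1.1 := (mem_TS h.sub z4).2 r1.1
  have hD : fderiv ℝ (zh τ₁ τ₂ ζ) (q.1.1, q.2.1) (q.1.2, 0) = a • v.2 := by
    have h1 := fderiv_zh_tan t₁ t₂ hO hg hW z4 z5 hq2T (Submodule.zero_mem _)
    rw [z1] at h1
    rw [h1]
    have h2 : P₁ q.1.2 = L⁻¹ • w := by
      show P₁ (L⁻¹ • fderiv ℝ ψ₁ x.1 w) = _
      rw [map_smul, hp₁.κ_fderiv hcfg.1]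
    have h3 : ((P₁ q.1.2, P₂ 0) : N × N) = L⁻¹ • (w, 0) := by
      rw [h2, map_zero]; simp
    rw [h3, map_smul, he, hv.2, smul_smul, smul_smul]
    congr 1
    field_simp
  have ha0 : a ≠ 0 := by
    rintro rfl
    simp at ha
  have hε0 : ε ≠ 0 := by
    rintro rfl
    simp at ha
  refine ⟨L * θ x, by positivity, by nlinarith, Prod.ext ?_ ?_⟩
  · show zh τ₁ τ₂ ζ (q.1.1, q.2.1) = v.1
    rw [z2, ← hl.cross _ hxO₂, ← hv.1]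
    show G1 Φ ψ₁ (x.1, κ x) (θ x) = _
    rw [hκ]
  · show (ε / (|ε| * ‖fderiv ℝ (zh τ₁ τ₂ ζ) (q.1.1, q.2.1) (q.1.2, 0)‖)) •
      fderiv ℝ (zh τ₁ τ₂ ζ) (q.1.1, q.2.1) (q.1.2, 0) = v.2
    rw [hD, norm_smul, hv1, mul_one, smul_smul, Real.norm_eq_abs, ← abs_mul, abs_of_pos ha,
      div_mul_eq_mul_div, div_self ha.ne', one_smul]

/-- `Th` is smooth. -/
theorem Th_smooth (hsub : IsSub F S) (hp₁ : Patch S Ω₁ ψ₁ P₁ W₁)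
    (hp₂ : Patch S Ω₂ ψ₂ P₂ W₂) (t₁ : Tau S Ω₁ P₁ W₁ D₁ τ₁)
    (t₂ : Tau S Ω₂ P₂ W₂ D₂ τ₂) (hO : IsOpen O) (hg : Germ S O ζ) {ε : ℝ} (hε : ε ≠ 0)
    {q : (E × E) × (E × E)} (hqR : q ∈ Ret Φ S) (hW : (q.1.1, q.2.1) ∈ Wd D₁ D₂ τ₁ τ₂ O) :
    ∃ U ∈ 𝓝 q, ContDiffOn ℝ ∞ (Th ε (zh τ₁ τ₂ ζ)) U := by
  have hWo := isOpen_Wd t₁ t₂ hO
  have hz := smooth_zh t₁ t₂ hg
  have hz' : ContDiffOn ℝ ∞ (fderiv ℝ (zh τ₁ τ₂ ζ)) (Wd D₁ D₂ τ₁ τ₂ O) :=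
    hz.fderiv_of_isOpen hWo (by norm_num)
  set W' : Set ((E × E) × (E × E)) := {q | (q.1.1, q.2.1) ∈ Wd D₁ D₂ τ₁ τ₂ O} with hW'
  have hpr : ContDiff ℝ ∞ (fun q : (E × E) × (E × E) => (q.1.1, q.2.1)) :=
    (contDiff_fst.fst).prodMk (contDiff_snd.fst)
  have hW'o : IsOpen W' := hWo.preimage hpr.continuous
  set D : (E × E) × (E × E) → E := fun q => fderiv ℝ (zh τ₁ τ₂ ζ) (q.1.1, q.2.1) (q.1.2, 0) with hD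
  have hz1 : ContDiffOn ℝ ∞ (fun q : (E × E) × (E × E) => zh τ₁ τ₂ ζ (q.1.1, q.2.1)) W' :=
    hz.comp hpr.contDiffOn fun q hq => hq
  have hDs : ContDiffOn ℝ ∞ D W' := by
    have h1 : ContDiffOn ℝ ∞ (fun q : (E × E) × (E × E) => fderiv ℝ (zh τ₁ τ₂ ζ) (q.1.1, q.2.1))
        W' := hz'.comp hpr.contDiffOn fun q hq => hq
    have h2 : ContDiff ℝ ∞ (fun q : (E × E) × (E × E) => ((q.1.2, 0) : E × E)) :=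
      (contDiff_fst.snd).prodMk contDiff_const
    exact h1.clm_apply h2.contDiffOn
  have h₁ : q.1.1 ∈ S := fst_mem_TSet hqR.1.1
  have h₂ : q.2.1 ∈ S := fst_mem_TSet hqR.2.1.1
  have hq2T : q.1.2 ∈ ZT S q.1.1 := (mem_TS hsub h₁).2 hqR.1.1
  have hDq : D q ≠ 0 := by
    intro h0
    have h1 := (gd_zh hsub hp₁ hp₂ t₁ t₂ hO hg hW)
    obtain ⟨W, hWo', hWm, -, hall⟩ := h1
    have h2 := (hall _ hWm h₁ h₂).2.2.1 q.1.2 hq2T h0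
    have h3 : ‖q.1.2‖ = 1 := hqR.1.2
    rw [h2, norm_zero] at h3
    exact zero_ne_one h3
  have hU : W' ∩ D ⁻¹' {0}ᶜ ∈ 𝓝 q :=
    (hDs.continuousOn.isOpen_inter_preimage hW'o isOpen_compl_singleton).mem_nhds ⟨hW, hDq⟩
  refine ⟨W' ∩ D ⁻¹' {0}ᶜ, hU, ?_⟩
  have hDs' := hDs.mono (inter_subset_left : W' ∩ D ⁻¹' {0}ᶜ ⊆ W')
  have hn : ContDiffOn ℝ ∞ (fun q => ‖D q‖) (W' ∩ D ⁻¹' {0}ᶜ) := hDs'.norm ℝ fun q hq => hq.2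
  have hc : ContDiffOn ℝ ∞ (fun q => ε / (|ε| * ‖D q‖)) (W' ∩ D ⁻¹' {0}ᶜ) :=
    contDiffOn_const.div (contDiffOn_const.mul hn) fun q hq =>
      mul_ne_zero (abs_ne_zero.2 hε) (norm_ne_zero_iff.2 hq.2)
  exact (hz1.mono inter_subset_left).prodMk (hc.smul hDs')

/-- `Th` respects the relation. -/
theorem Th_mem {𝒪 : Set ((E × E) × (E × E))} {𝒞 : Set ((N × N) × N)} {ε : ℝ}
    (hdim : Module.finrank ℝ E = Module.finrank ℝ F + Module.finrank ℝ N)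
    (h : GFlow F S A K K₂ Φ) (hcl : IsClosed (Ret Φ S))
    (hd : CD Φ S Ω₁ Ω₂ ψ₁ ψ₂ P₁ P₂ W₁ W₂ O ζ ε 𝒪 𝒞) (t₁ : Tau S Ω₁ P₁ W₁ D₁ τ₁)
    (t₂ : Tau S Ω₂ P₂ W₂ D₂ τ₂) {q : (E × E) × (E × E)} (hq : q ∈ 𝒪) (hqR : q ∈ Ret Φ S)
    (hW : (q.1.1, q.2.1) ∈ Wd D₁ D₂ τ₁ τ₂ O) :
    (q.1, Th ε (zh τ₁ τ₂ ζ) q) ∈ Ret Φ S ∧ (Th ε (zh τ₁ τ₂ ζ) q, q.2) ∈ Ret Φ S := by
  have hqc := hd.dense ⟨hq, hqR⟩
  have hε : ε ≠ 0 := by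
    rintro rfl
    obtain ⟨_, c, hc, -⟩ := closure_nonempty_iff.1 ⟨q, hqc⟩
    obtain ⟨-, a, -, ha⟩ := hd.cls c hc
    simp at ha
  have hW'o : IsOpen {q : (E × E) × (E × E) | (q.1.1, q.2.1) ∈ Wd D₁ D₂ τ₁ τ₂ O} :=
    (isOpen_Wd t₁ t₂ hd.isOpen).preimage
      (by fun_prop : Continuous fun q : (E × E) × (E × E) => (q.1.1, q.2.1))
  obtain ⟨U, hU, hUs⟩ := Th_smooth h.sub hd.patch₁ hd.patch₂ t₁ t₂ hd.isOpen hd.germ hε hqR hW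
  have hThc : ContinuousAt (Th ε (zh τ₁ τ₂ ζ)) q := (hUs.contDiffAt hU).continuousAt
  have hfr : ∃ᶠ q' in 𝓝 q, (q'.1, Th ε (zh τ₁ τ₂ ζ) q') ∈ Ret Φ S ∧
      (Th ε (zh τ₁ τ₂ ζ) q', q'.2) ∈ Ret Φ S := by
    refine (mem_closure_iff_frequently.1 hqc).mp ?_
    filter_upwards [hW'o.mem_nhds hW] with q' hq'W hq'
    obtain ⟨c, hc, rfl⟩ := hq'
    obtain ⟨-, a, hcr, ha⟩ := hd.cls c hc
    obtain ⟨s, hs0, hs1, hs⟩ := Th_exact h hd.patch₁ hd.patch₂ t₁ t₂ hd.isOpen hd.germ hcr ha hq'W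
    obtain ⟨r1, r2, r3⟩ := rp_eq h hd.patch₁ hcr.1.1 hcr.2.1
    simp only at hs r1 r3 ⊢
    rw [hs]
    refine ⟨flow_mem_Ret hdim h r1 s, ?_⟩
    have h1 := flow_mem_Ret hdim h (flow_mem_UT h r1 s) (‖fderiv ℝ ψ₁ c.1.1 c.2‖ - s)
    rw [← h.flow.add h.vf, sub_add_cancel, ← r3] at h1
    exact h1
  constructor
  · have hc1 : ContinuousAt (fun q' : (E × E) × (E × E) => (q'.1, Th ε (zh τ₁ τ₂ ζ) q')) q :=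
      continuousAt_fst.prodMk hThc
    by_contra hcon
    exact (hfr.and_eventually (hc1.preimage_mem_nhds (hcl.isOpen_compl.mem_nhds hcon))).exists.elim
      fun q' hq' => hq'.2 hq'.1.1
  · have hc1 : ContinuousAt (fun q' : (E × E) × (E × E) => (Th ε (zh τ₁ τ₂ ζ) q', q'.2)) q :=
      hThc.prodMk continuousAt_snd
    by_contra hcon
    exact (hfr.and_eventually (hc1.preimage_mem_nhds (hcl.isOpen_compl.mem_nhds hcon))).exists.elim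
      fun q' hq' => hq'.2 hq'.1.2

end Pool.Agent.H91.SF
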