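import Pool.Agent.H91.SF.Retr
import Pool.Agent.H77.SN.Defs

/-!
# The class function in the ambient space
-/

set_option autoImplicit false

open scoped InnerProductSpace Topology ContDiff
open Set Filter

namespace Pool.Agent.H91.SF

open Pool.Agent.H91.GE hiding G1 G11 Nondeg Br exists_br cF smooth_cF Cfg mem_TSet_of_map
open Pool.Agent.H59.LV Pool.Agent.H59.ND Pool.Agent.H77.ND Pool.Agent.H59.Zar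

variable {E F N : Type*} [NormedAddCommGroup E] [InnerProductSpace ℝ E] [FiniteDimensional ℝ E]
  [NormedAddCommGroup F] [InnerProductSpace ℝ F] [FiniteDimensional ℝ F]
  [NormedAddCommGroup N] [NormedSpace ℝ N] [FiniteDimensional ℝ N]
  {S : Set E} {A : E × E → E} {K K₂ : NNReal} {Φ : ℝ → E × E → E × E}
  {Ω₁ Ω₂ : Set N} {ψ₁ ψ₂ : N → E} {P₁ P₂ : E →L[ℝ] N} {W₁ W₂ : Set E}  {O : Set (N × N)} {ζ : N × N → E} {D₁ D₂ : Set E} {τ₁ τ₂ : E → N}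

/-- A smooth chart of `S` defined in the ambient space. -/
structure Tau (S : Set E) (Ω : Set N) (P : E →L[ℝ] N) (W D : Set E) (τ : E → N) : Prop where
  isOpen : IsOpen D
  sub : D ⊆ W
  smooth : ContDiffOn ℝ ∞ τ D
  memΩ : ∀ y ∈ D, τ y ∈ Ω
  eq : ∀ y ∈ D, y ∈ S → τ y = P y
  nor : ∀ y ∈ D, y ∈ S → ∀ n, (∀ e ∈ ZT S y, ⟪n, e⟫_ℝ = 0) → fderiv ℝ τ y n = 0
  tan : ∀ y ∈ D, y ∈ S → ∀ e ∈ ZT S y, fderiv ℝ τ y e = P e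

theorem exists_Tau {Ω : Set N} {ψ : N → E} {P : E →L[ℝ] N} {W : Set E} (hsub : IsSub F S)
    (hp : Patch S Ω ψ P W) {x : E} (hx : x ∈ S) (hW : x ∈ W) :
    ∃ (D : Set E) (τ : E → N), Tau S Ω P W D τ ∧ x ∈ D := by
  obtain ⟨D, τ, h1, h2, h3, h4, h5, h6⟩ := exists_tau hsub hp hx hW
  exact ⟨D, τ, ⟨h1, h3, h4, h5, fun y hy hyS => (h6 y hy hyS).1,
    fun y hy hyS => (h6 y hy hyS).2.1, fun y hy hyS => (h6 y hy hyS).2.2⟩, h2⟩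

/-- The class function. -/
def zh (τ₁ τ₂ : E → N) (ζ : N × N → E) (y : E × E) : E := ζ (τ₁ y.1, τ₂ y.2)

/-- Its domain. -/
def Wd (D₁ D₂ : Set E) (τ₁ τ₂ : E → N) (O : Set (N × N)) : Set (E × E) :=
  (D₁ ×ˢ D₂) ∩ (fun y : E × E => (τ₁ y.1, τ₂ y.2)) ⁻¹' O

theorem smooth_tt (t₁ : Tau S Ω₁ P₁ W₁ D₁ τ₁) (t₂ : Tau S Ω₂ P₂ W₂ D₂ τ₂) :
    ContDiffOn ℝ ∞ (fun y : E × E => (τ₁ y.1, τ₂ y.2)) (D₁ ×ˢ D₂) :=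
  (t₁.smooth.comp contDiff_fst.contDiffOn fun y hy => hy.1).prodMk
    (t₂.smooth.comp contDiff_snd.contDiffOn fun y hy => hy.2)

theorem isOpen_Wd (t₁ : Tau S Ω₁ P₁ W₁ D₁ τ₁) (t₂ : Tau S Ω₂ P₂ W₂ D₂ τ₂) (hO : IsOpen O) :
    IsOpen (Wd D₁ D₂ τ₁ τ₂ O) :=
  (smooth_tt t₁ t₂).continuousOn.isOpen_inter_preimage (t₁.isOpen.prod t₂.isOpen) hO

theorem smooth_zh (t₁ : Tau S Ω₁ P₁ W₁ D₁ τ₁) (t₂ : Tau S Ω₂ P₂ W₂ D₂ τ₂) (hg : Germ S O ζ) :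
    ContDiffOn ℝ ∞ (zh τ₁ τ₂ ζ) (Wd D₁ D₂ τ₁ τ₂ O) :=
  hg.smooth.comp ((smooth_tt t₁ t₂).mono inter_subset_left) fun y hy => hy.2

theorem fderiv_zh (t₁ : Tau S Ω₁ P₁ W₁ D₁ τ₁) (t₂ : Tau S Ω₂ P₂ W₂ D₂ τ₂) (hO : IsOpen O)
    (hg : Germ S O ζ) {y : E × E} (hy : y ∈ Wd D₁ D₂ τ₁ τ₂ O) (a : E × E) :
    fderiv ℝ (zh τ₁ τ₂ ζ) y a
      = fderiv ℝ ζ (τ₁ y.1, τ₂ y.2) (fderiv ℝ τ₁ y.1 a.1, fderiv ℝ τ₂ y.2 a.2) := by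
  have h1 : HasFDerivAt (fun y : E × E => τ₁ y.1) ((fderiv ℝ τ₁ y.1) ∘L ContinuousLinearMap.fst ℝ E E)
      y := HasFDerivAt.comp y (g := τ₁) (hasFDerivAt_of_open t₁.isOpen t₁.smooth hy.1.1)
        hasFDerivAt_fst
  have h2 : HasFDerivAt (fun y : E × E => τ₂ y.2) ((fderiv ℝ τ₂ y.2) ∘L ContinuousLinearMap.snd ℝ E E)
      y := HasFDerivAt.comp y (g := τ₂) (hasFDerivAt_of_open t₂.isOpen t₂.smooth hy.1.2)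
        hasFDerivAt_snd
  have h3 : HasFDerivAt ζ (fderiv ℝ ζ (τ₁ y.1, τ₂ y.2)) (τ₁ y.1, τ₂ y.2) :=
    hasFDerivAt_of_open hO hg.smooth hy.2
  have h4 := HasFDerivAt.comp y (g := ζ) (f := fun y : E × E => (τ₁ y.1, τ₂ y.2)) h3
    (h1.prodMk h2)
  have h5 : fderiv ℝ (zh τ₁ τ₂ ζ) y = _ := h4.fderiv
  rw [h5]
  rfl

/-- The class function on tangent vectors. -/
theorem fderiv_zh_tan (t₁ : Tau S Ω₁ P₁ W₁ D₁ τ₁) (t₂ : Tau S Ω₂ P₂ W₂ D₂ τ₂) (hO : IsOpen O)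
    (hg : Germ S O ζ) {y : E × E} (hy : y ∈ Wd D₁ D₂ τ₁ τ₂ O) (h₁ : y.1 ∈ S) (h₂ : y.2 ∈ S)
    {a b : E} (ha : a ∈ ZT S y.1) (hb : b ∈ ZT S y.2) :
    fderiv ℝ (zh τ₁ τ₂ ζ) y (a, b) = fderiv ℝ ζ (P₁ y.1, P₂ y.2) (P₁ a, P₂ b) := by
  rw [fderiv_zh t₁ t₂ hO hg hy]
  show fderiv ℝ ζ (τ₁ y.1, τ₂ y.2) (fderiv ℝ τ₁ y.1 a, fderiv ℝ τ₂ y.2 b) = _
  rw [t₁.eq _ hy.1.1 h₁, t₂.eq _ hy.1.2 h₂, t₁.tan _ hy.1.1 h₁ _ ha, t₂.tan _ hy.1.2 h₂ _ hb]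

omit [FiniteDimensional ℝ N] in
/-- A patch does not lose tangent vectors. -/
theorem P_inj {Ω : Set N} {ψ : N → E} {P : E →L[ℝ] N} {W : Set E} (hsub : IsSub F S)
    (hp : Patch S Ω ψ P W) {y a : E} (hy : y ∈ W) (hyS : y ∈ S) (ha : a ∈ ZT S y) (h0 : P a = 0) :
    a = 0 := by
  have h1 := (hp.of_TSet hy ((mem_TS hsub hyS).1 ha)).2.2
  rw [h0, map_zero] at h1
  exact h1.symm

theorem gd_zh (hsub : IsSub F S) (hp₁ : Patch S Ω₁ ψ₁ P₁ W₁) (hp₂ : Patch S Ω₂ ψ₂ P₂ W₂)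
    (t₁ : Tau S Ω₁ P₁ W₁ D₁ τ₁) (t₂ : Tau S Ω₂ P₂ W₂ D₂ τ₂) (hO : IsOpen O)
    (hg : Germ S O ζ) {x y : E} (hxy : (x, y) ∈ Wd D₁ D₂ τ₁ τ₂ O) :
    Pool.Agent.H77.SN.Gd S (zh τ₁ τ₂ ζ) x y := by
  refine ⟨Wd D₁ D₂ τ₁ τ₂ O, isOpen_Wd t₁ t₂ hO, hxy, smooth_zh t₁ t₂ hg, ?_⟩
  rintro ⟨q₁, q₂⟩ hq h₁ h₂
  simp only at h₁ h₂
  refine ⟨hg.mem _ hq.2, fun n hn₁ hn₂ => ?_, fun a ha h0 => ?_, fun b hb h0 => ?_⟩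
  · rw [fderiv_zh t₁ t₂ hO hg hq]
    show fderiv ℝ ζ (τ₁ q₁, τ₂ q₂) (fderiv ℝ τ₁ q₁ n.1, fderiv ℝ τ₂ q₂ n.2) = 0
    rw [t₁.nor _ hq.1.1 h₁ _ hn₁, t₂.nor _ hq.1.2 h₂ _ hn₂]
    exact map_zero _
  · rw [fderiv_zh_tan t₁ t₂ hO hg hq h₁ h₂ ha (Submodule.zero_mem _), map_zero] at h0
    have hm : (P₁ q₁, P₂ q₂) ∈ O := by
      have := hq.2
      rw [mem_preimage, t₁.eq _ hq.1.1 h₁, t₂.eq _ hq.1.2 h₂] at this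
      exact this
    exact P_inj hsub hp₁ (t₁.sub hq.1.1) h₁ ha (hg.inj₁ _ hm _ h0)
  · rw [fderiv_zh_tan t₁ t₂ hO hg hq h₁ h₂ (Submodule.zero_mem _) hb, map_zero] at h0
    have hm : (P₁ q₁, P₂ q₂) ∈ O := by
      have := hq.2
      rw [mem_preimage, t₁.eq _ hq.1.1 h₁, t₂.eq _ hq.1.2 h₂] at this
      exact this
    exact P_inj hsub hp₂ (t₂.sub hq.1.2) h₂ hb (hg.inj₂ _ hm _ h0)

end Pool.Agent.H91.SF
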